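import Pool.Agent.H89IP.Stm

/-!
# Project IP, piece BIG: one good `M` gives all large `M`
-/

set_option autoImplicit false

open Finset Filter Topology MeasureTheory

namespace Pool.Agent.H89IP

open Pool.Agent.H88RD (Pr Pr_pow)

theorem t_BIG : S_BIG := by
  intro k f s hf hfs h
  obtain ⟨m, hm, Δ₀, hP, hc⟩ := h ((f + s) / 2) (by linarith)
  set s' : ℝ := (f + s) / 2 with hs'
  have hs0 : 0 ≤ s' := by rw [hs']; linarith
  have hss : 0 < s - s' := by rw [hs']; linarith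
  have hm0 : (0 : ℝ) < m := by
    have : 0 < m := by omega
    exact_mod_cast this
  have ha0 : (0 : ℝ) < (m : ℝ) ^ s' := Real.rpow_pos_of_pos hm0 _
  refine ⟨max m (⌈((m : ℝ) ^ s') ^ (1 / (s - s'))⌉₊), fun M hM => ?_⟩
  have hM1 : m ≤ M := (le_max_left _ _).trans hM
  have hM2 : ((m : ℝ) ^ s') ^ (1 / (s - s')) ≤ M :=
    (Nat.le_ceil _).trans (by exact_mod_cast (le_max_right _ _).trans hM)
  have hM0 : (0 : ℝ) < M := hm0.trans_le (by exact_mod_cast hM1)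
  have key : (m : ℝ) ^ s' ≤ (M : ℝ) ^ (s - s') := by
    have h1 := Real.rpow_le_rpow (Real.rpow_nonneg ha0.le _) hM2 hss.le
    rw [← Real.rpow_mul ha0.le, one_div_mul_cancel hss.ne', Real.rpow_one] at h1
    exact h1
  set N : ℕ := Nat.clog m M with hN
  have hN1 : M ≤ m ^ N := Nat.le_pow_clog (by omega) M
  have hN2 : m ^ N.pred < M := Nat.pow_pred_clog_lt_self (by omega) (by omega)
  have hN0 : N ≠ 0 := by
    intro h0
    rw [h0, pow_zero] at hN1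
    omega
  obtain ⟨Δ, h1, h2⟩ := Pr_pow (by omega) hP N
  refine ⟨Δ, fun r hr hr2 => h2 r hr (lt_of_lt_of_le hr2 (by exact_mod_cast hN1)), ?_⟩
  have e1 : (Δ.card : ℝ) ≤ ((m : ℝ) ^ s') ^ N := by
    have h3 : (Δ.card : ℝ) ≤ (Δ₀.card : ℝ) ^ N := by exact_mod_cast h1
    exact h3.trans (pow_le_pow_left₀ (Nat.cast_nonneg _) hc N)
  have e2 : ((m : ℝ) ^ s') ^ N = (m : ℝ) ^ s' * ((m : ℝ) ^ N.pred) ^ s' := by
    obtain ⟨n, hn⟩ := Nat.exists_eq_succ_of_ne_zero hN0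
    rw [hn, Nat.pred_succ, pow_succ, mul_comm, ← Real.rpow_natCast, ← Real.rpow_natCast,
      ← Real.rpow_mul hm0.le, ← Real.rpow_mul hm0.le, mul_comm s' (n : ℝ)]
  have e3 : ((m : ℝ) ^ N.pred) ^ s' ≤ (M : ℝ) ^ s' := by
    refine Real.rpow_le_rpow (pow_nonneg hm0.le _) ?_ hs0
    exact_mod_cast hN2.le
  calc (Δ.card : ℝ) ≤ (m : ℝ) ^ s' * ((m : ℝ) ^ N.pred) ^ s' := by rw [← e2]; exact e1
    _ ≤ (M : ℝ) ^ (s - s') * (M : ℝ) ^ s' :=
        mul_le_mul key e3 (Real.rpow_nonneg (pow_nonneg hm0.le _) _) (Real.rpow_nonneg hM0.le _)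
    _ = (M : ℝ) ^ s := by rw [← Real.rpow_add hM0]; congr 1; ring

end Pool.Agent.H89IP
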