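import Pool.Agent.H89IP.Stm

set_option autoImplicit false

open Finset Filter Topology MeasureTheory

namespace Pool.Agent.H89IP

open Pool.Agent.H88RD (Pr Pr_pow)

theorem t_BIG : S_BIG := by
  intro k f s hf hfs hdig
  set s' : ℝ := (f + s) / 2 with hs'
  have h1 : f < s' := by rw [hs']; linarith
  have h2 : s' < s := by rw [hs']; linarith
  obtain ⟨m, hm, Δ₀, hΔ₀, hcard⟩ := hdig s' h1
  have hm1 : (1 : ℝ) < m := by exact_mod_cast (by omega : 1 < m)
  have hm0 : (0 : ℝ) < m := by linarith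
  have hs0 : 0 ≤ s' := by linarith
  obtain ⟨M₀, hM₀⟩ : ∃ M₀ : ℕ, ∀ M : ℕ, M₀ ≤ M → (m : ℝ) ^ s' ≤ (M : ℝ) ^ (s - s') := by
    have h3 : Tendsto (fun M : ℕ => (M : ℝ) ^ (s - s')) atTop atTop :=
      (tendsto_rpow_atTop (by linarith)).comp tendsto_natCast_atTop_atTop
    exact eventually_atTop.mp (h3.eventually_ge_atTop ((m : ℝ) ^ s'))
  refine ⟨max M₀ 2, fun M hM => ?_⟩
  have hM2 : 2 ≤ M := (le_max_right _ _).trans hM
  have hM1 : (1 : ℝ) ≤ M := by exact_mod_cast (by omega : 1 ≤ M)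
  set N := Nat.clog m M with hN
  have h3 : M ≤ m ^ N := Nat.le_pow_clog (by omega) M
  have h4 : m ^ (N - 1) < M := Nat.pow_pred_clog_lt_self (by omega) (by omega)
  obtain ⟨Δ, h5, h6⟩ := Pr_pow (by omega : 1 ≤ m) hΔ₀ N
  refine ⟨Δ, fun r hr0 hr1 => h6 r hr0 (hr1.trans_le (by exact_mod_cast h3)), ?_⟩
  have hNpos : 1 ≤ N := Nat.clog_pos (by omega) (by omega)
  calc (Δ.card : ℝ) ≤ ((Δ₀.card ^ N : ℕ) : ℝ) := by exact_mod_cast h5
    _ = (Δ₀.card : ℝ) ^ N := by push_cast; rfl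
    _ ≤ ((m : ℝ) ^ s') ^ N := pow_le_pow_left₀ (Nat.cast_nonneg _) hcard N
    _ = (m : ℝ) ^ s' * ((m : ℝ) ^ s') ^ (N - 1) := by
        conv_lhs => rw [← Nat.sub_add_cancel hNpos]
        rw [pow_succ]
        ring
    _ = (m : ℝ) ^ s' * (((m ^ (N - 1) : ℕ) : ℝ)) ^ s' := by
        congr 1
        push_cast
        rw [← Real.rpow_natCast, ← Real.rpow_mul hm0.le, mul_comm, Real.rpow_mul hm0.le,
          Real.rpow_natCast]
    _ ≤ (m : ℝ) ^ s' * (M : ℝ) ^ s' := by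
        refine mul_le_mul_of_nonneg_left ?_ (by positivity)
        exact Real.rpow_le_rpow (Nat.cast_nonneg _) (by exact_mod_cast h4.le) hs0
    _ ≤ (M : ℝ) ^ (s - s') * (M : ℝ) ^ s' := by
        refine mul_le_mul_of_nonneg_right (hM₀ M ((le_max_left _ _).trans hM)) (by positivity)
    _ = (M : ℝ) ^ s := by
        rw [← Real.rpow_add (by linarith), sub_add_cancel]

end Pool.Agent.H89IP
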