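import Pool.Agent.H89IP.Stm

/-! # Project IP, piece CEL (helper11): the cells of X -/

set_option autoImplicit false

open Finset Filter Topology MeasureTheory

namespace Pool.Agent.H89IP

namespace CELP

lemma P_eq (l : ℕ) : P l = (2 : ℝ) ^ (((l : ℝ) + 1) * (l + 2) / 2) := by
  have h2 : 2 ∣ (l + 1) * (l + 2) := (Nat.even_mul_succ_self (l + 1)).two_dvd
  have h3 : (((l + 1) * (l + 2) / 2 : ℕ) : ℝ) = ((l : ℝ) + 1) * (l + 2) / 2 := by
    rw [Nat.cast_div h2 (by norm_num)]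
    push_cast
    ring
  rw [P, ← h3, Real.rpow_natCast]

lemma P_pos (l : ℕ) : 0 < P l := by
  unfold P
  positivity

/-- `τ m = 2 ^ (- m (m - 1) / 2)` -/
noncomputable def tau (m : ℕ) : ℝ := (2 : ℝ) ^ (-((m : ℝ) * (m - 1) / 2))

lemma tau_pos (m : ℕ) : 0 < tau m := by
  unfold tau
  positivity

lemma term_le (m j : ℕ) : (4 : ℝ) ^ (m + j + 1) / P (m + j) ≤ 4 * tau m * (1 / 2) ^ j := by
  have h4 : (4 : ℝ) ^ (m + j + 1) = (2 : ℝ) ^ (2 * ((m : ℝ) + j + 1)) := by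
    have : (4 : ℝ) = (2 : ℝ) ^ (2 : ℝ) := by norm_num
    rw [this, ← Real.rpow_natCast, ← Real.rpow_mul (by norm_num)]
    push_cast
    ring_nf
  have hj : ((1 : ℝ) / 2) ^ j = (2 : ℝ) ^ (-(j : ℝ)) := by
    rw [Real.rpow_neg (by norm_num), Real.rpow_natCast, one_div, inv_pow]
  have h44 : (4 : ℝ) = (2 : ℝ) ^ (2 : ℝ) := by norm_num
  rw [h4, P_eq, ← Real.rpow_sub (by norm_num), hj, tau, h44, ← Real.rpow_add (by norm_num),
    ← Real.rpow_add (by norm_num)]
  refine Real.rpow_le_rpow_of_exponent_le (by norm_num) ?_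
  push_cast
  have hm : (0 : ℝ) ≤ m := Nat.cast_nonneg m
  have hj0 : (0 : ℝ) ≤ j := Nat.cast_nonneg j
  have hjj : (0 : ℝ) ≤ ((j : ℝ) - 1) * (j - 2) := by
    rcases Nat.lt_or_ge j 2 with h | h
    · interval_cases j <;> norm_num
    · have : (2 : ℝ) ≤ j := by exact_mod_cast h
      nlinarith
  nlinarith [mul_nonneg hm hj0]

/-- the tails -/
lemma tail_le {c : ℕ} {d : ℕ → ℤ} (hd : ∀ l, |d l| ≤ c * 4 ^ (l + 1)) {x : ℝ}
    (hx : HasSum (fun l => (d l : ℝ) / P l) x) (m : ℕ) :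
    |x - ∑ l ∈ range m, (d l : ℝ) / P l| ≤ 8 * c * tau m := by
  have h1 := (hasSum_nat_add_iff' m).2 hx
  have h2 : ∀ j : ℕ, ‖(d (j + m) : ℝ) / P (j + m)‖ ≤ 4 * c * tau m * (1 / 2) ^ j := by
    intro j
    rw [Real.norm_eq_abs, abs_div, abs_of_pos (P_pos _)]
    have h3 : |(d (j + m) : ℝ)| ≤ c * 4 ^ (m + j + 1) := by
      have := hd (j + m)
      rw [add_comm j m] at this ⊢
      exact_mod_cast this
    rw [add_comm j m] at *
    calc |(d (m + j) : ℝ)| / P (m + j) ≤ (c * 4 ^ (m + j + 1)) / P (m + j) :=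
          div_le_div_of_nonneg_right h3 (P_pos _).le
      _ = c * (4 ^ (m + j + 1) / P (m + j)) := by ring
      _ ≤ c * (4 * tau m * (1 / 2) ^ j) :=
          mul_le_mul_of_nonneg_left (term_le m j) (Nat.cast_nonneg c)
      _ = _ := by ring
  have h4 : HasSum (fun j : ℕ => 4 * c * tau m * ((1 : ℝ) / 2) ^ j) (4 * c * tau m * 2) :=
    hasSum_geometric_two.mul_left _
  have h5 := tsum_of_norm_bounded h4 h2
  rw [h1.tsum_eq] at h5
  rw [← Real.norm_eq_abs]
  refine h5.trans (le_of_eq (by ring))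

/-- the digits -/
noncomputable def dig (c l₃ : ℕ) (Δ : ℕ → Finset ℤ) (l : ℕ) : Finset ℤ :=
  if l < l₃ then Icc (-(c * 4 ^ (l + 1) : ℤ)) (c * 4 ^ (l + 1)) else Δ l

open Classical in
/-- the partial sums -/
noncomputable def ps (D : ℕ → Finset ℤ) : ℕ → Finset ℝ
  | 0 => {0}
  | m + 1 => image₂ (fun (a : ℝ) (b : ℤ) => a + (b : ℝ) / P m) (ps D m) (D m)

lemma mem_ps {D : ℕ → Finset ℤ} {d : ℕ → ℤ} (h : ∀ l, d l ∈ D l) (m : ℕ) :
    ∑ l ∈ range m, (d l : ℝ) / P l ∈ ps D m := by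
  classical
  induction m with
  | zero => simp [ps]
  | succ m ih =>
    rw [sum_range_succ, ps]
    exact mem_image₂_of_mem ih (h m)

lemma card_ps (D : ℕ → Finset ℤ) (m : ℕ) : (ps D (m + 1)).card ≤ (ps D m).card * (D m).card := by
  classical
  rw [ps]
  exact card_image₂_le _ _ _

lemma growth (a : ℕ → ℝ) (ha : ∀ m, 0 ≤ a m) (l₃ : ℕ) (s : ℝ) (hs : 0 ≤ s)
    (h : ∀ m, l₃ ≤ m → a (m + 1) ≤ a m * (2 : ℝ) ^ (((m : ℝ) + 1) * s)) :
    ∃ C : ℝ, 0 < C ∧ ∀ m : ℕ, a m ≤ C * (2 : ℝ) ^ (s * ((m : ℝ) * (m + 1) / 2)) := by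
  have hpow : ∀ m : ℕ, (1 : ℝ) ≤ (2 : ℝ) ^ (s * ((m : ℝ) * (m + 1) / 2)) := by
    intro m
    refine Real.one_le_rpow (by norm_num) ?_
    positivity
  have hsum : 0 ≤ ∑ i ∈ range (l₃ + 1), a i := sum_nonneg fun i _ => ha i
  refine ⟨∑ i ∈ range (l₃ + 1), a i + 1, by linarith, fun m => ?_⟩
  have small : ∀ m, m ≤ l₃ →
      a m ≤ (∑ i ∈ range (l₃ + 1), a i + 1) * (2 : ℝ) ^ (s * ((m : ℝ) * (m + 1) / 2)) := by
    intro m hm
    have h1 : a m ≤ ∑ i ∈ range (l₃ + 1), a i :=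
      single_le_sum (f := a) (fun i _ => ha i) (mem_range.2 (by omega))
    calc a m ≤ (∑ i ∈ range (l₃ + 1), a i + 1) * 1 := by linarith
      _ ≤ _ := mul_le_mul_of_nonneg_left (hpow m) (by linarith)
  rcases Nat.le_total m l₃ with hm | hm
  · exact small m hm
  · induction m, hm using Nat.le_induction with
    | base => exact small l₃ le_rfl
    | succ m hm ih =>
      calc a (m + 1) ≤ a m * (2 : ℝ) ^ (((m : ℝ) + 1) * s) := h m hm
        _ ≤ ((∑ i ∈ range (l₃ + 1), a i + 1) * (2 : ℝ) ^ (s * ((m : ℝ) * (m + 1) / 2))) *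
            (2 : ℝ) ^ (((m : ℝ) + 1) * s) := mul_le_mul_of_nonneg_right ih (by positivity)
        _ = _ := by
          rw [mul_assoc, ← Real.rpow_add (by norm_num)]
          congr 2
          push_cast
          ring

lemma tau_tendsto : Tendsto tau atTop (𝓝 0) := by
  have h1 : Tendsto (fun m : ℕ => 2 * ((1 : ℝ) / 2) ^ m) atTop (𝓝 0) := by
    have := (tendsto_pow_atTop_nhds_zero_of_lt_one (r := (1 : ℝ) / 2) (by norm_num)
      (by norm_num)).const_mul 2
    simpa using this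
  refine squeeze_zero (fun m => (tau_pos m).le) (fun m => ?_) h1
  have hj : ((1 : ℝ) / 2) ^ m = (2 : ℝ) ^ (-(m : ℝ)) := by
    rw [Real.rpow_neg (by norm_num), Real.rpow_natCast, one_div, inv_pow]
  have h2 : (2 : ℝ) * (2 : ℝ) ^ (-(m : ℝ)) = (2 : ℝ) ^ (1 + -(m : ℝ)) := by
    rw [Real.rpow_add (by norm_num), Real.rpow_one]
  rw [hj, h2, tau]
  refine Real.rpow_le_rpow_of_exponent_le (by norm_num) ?_
  have hjj : (0 : ℝ) ≤ ((m : ℝ) - 1) * (m - 2) := by
    rcases Nat.lt_or_ge m 2 with h | h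
    · interval_cases m <;> norm_num
    · have : (2 : ℝ) ≤ m := by exact_mod_cast h
      nlinarith
  nlinarith

end CELP

open CELP

theorem t_CEL : S_CEL := by
  classical
  intro c l₁ Δ s s' hs hss hΔ
  obtain ⟨l₂, hl₂⟩ := eventually_atTop.1 hΔ
  have hs' : 0 < s' := by linarith
  set l₃ := max l₁ l₂ with hl₃
  set D := dig c l₃ Δ with hD
  obtain ⟨C₁, hC₁, hcard⟩ := growth (fun m => ((ps D m).card : ℝ)) (fun m => Nat.cast_nonneg _) l₃
    s hs (by
      intro m hm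
      have h1 : ((ps D (m + 1)).card : ℝ) ≤ (ps D m).card * (D m).card := by
        exact_mod_cast card_ps D m
      refine h1.trans (mul_le_mul_of_nonneg_left ?_ (Nat.cast_nonneg _))
      have h2 : D m = Δ m := by
        rw [hD, dig, if_neg (by omega)]
      rw [h2]
      exact hl₂ m (le_trans (le_max_right _ _) hm))
  set c₀ : ℝ := 8 * c + 2 with hc₀
  have hc0 : 0 < c₀ := by positivity
  set B : ℝ := (3 * s' + s) ^ 2 / (8 * (s' - s)) with hB
  have he : 0 < s' - s := by linarith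
  refine ⟨3 * C₁ * (2 : ℝ) ^ B * c₀ ^ s', by positivity, fun δ hδ hδ1 => ?_⟩
  -- the choice of `m`
  have hex : ∃ m : ℕ, c₀ * tau m ≤ δ := by
    have h1 : Tendsto (fun m => c₀ * tau m) atTop (𝓝 0) := by
      have := tau_tendsto.const_mul c₀
      simpa using this
    exact (h1.eventually_le_const hδ).exists
  have hfind := Nat.find_spec hex
  have hmin := fun {k} => Nat.find_min hex (m := k)
  obtain ⟨k, hk⟩ : ∃ k, Nat.find hex = k + 1 := by
    refine Nat.exists_eq_succ_of_ne_zero ?_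
    intro h0
    rw [h0] at hfind
    have h1 : tau 0 = 1 := by simp [tau]
    rw [h1] at hfind
    have : (0 : ℝ) ≤ c := Nat.cast_nonneg c
    linarith
  rw [hk] at hfind
  have hk2 : δ < c₀ * tau k := not_le.1 (hmin (by omega))
  refine ⟨(ps D (k + 1)).biUnion fun a => Icc (⌊a / δ⌋ - 1) (⌊a / δ⌋ + 1), ?_, ?_⟩
  · rintro x ⟨d, hd1, hd2, hd3⟩
    have hdD : ∀ l, d l ∈ D l := by
      intro l
      rw [hD, dig]
      split_ifs with h
      · exact mem_Icc.2 (abs_le.1 (hd1 l))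
      · exact hd2 l (le_trans (le_max_left _ _) (not_lt.1 h))
    have h1 := tail_le hd1 hd3 (k + 1)
    set a := ∑ l ∈ range (k + 1), (d l : ℝ) / P l with ha
    have h2 : |x - a| ≤ δ := by
      refine h1.trans (le_trans ?_ hfind)
      exact mul_le_mul_of_nonneg_right (by linarith) (tau_pos _).le
    rw [mem_biUnion]
    refine ⟨a, mem_ps hdD (k + 1), ?_⟩
    have h3 : |x / δ - a / δ| ≤ 1 := by
      rw [← sub_div, abs_div, abs_of_pos hδ, div_le_one hδ]
      exact h2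
    rw [abs_le] at h3
    rw [mem_Icc]
    constructor
    · have : (a / δ - 1 : ℝ) ≤ x / δ := by linarith
      have h4 := Int.floor_le_floor this
      rwa [Int.floor_sub_one] at h4
    · have : x / δ ≤ a / δ + 1 := by linarith
      have h4 := Int.floor_le_floor this
      rwa [Int.floor_add_one] at h4
  · have h1 : (((ps D (k + 1)).biUnion fun a => Icc (⌊a / δ⌋ - 1) (⌊a / δ⌋ + 1)).card : ℝ) ≤
        (ps D (k + 1)).card * 3 := by
      have h2 := card_biUnion_le_card_mul (ps D (k + 1))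
        (fun a => Icc (⌊a / δ⌋ - 1) (⌊a / δ⌋ + 1)) 3 (fun a _ => by
          rw [Int.card_Icc]
          omega)
      exact_mod_cast h2
    have h2 := hcard (k + 1)
    have h3 : (2 : ℝ) ^ (s * ((((k + 1 : ℕ) : ℝ)) * (((k + 1 : ℕ) : ℝ) + 1) / 2)) ≤
        (2 : ℝ) ^ B * (2 : ℝ) ^ (s' * ((k : ℝ) * (k - 1) / 2)) := by
      rw [← Real.rpow_add (by norm_num)]
      refine Real.rpow_le_rpow_of_exponent_le (by norm_num) ?_
      push_cast
      have h4 : 0 ≤ (s' - s) / 2 * ((k : ℝ) - (s' + 3 * s) / (2 * (s' - s))) ^ 2 := by positivity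
      have h5 : s * (((k : ℝ) + 1) * ((k : ℝ) + 1 + 1) / 2) ≤
          (s' + 3 * s) ^ 2 / (8 * (s' - s)) + s + s' * ((k : ℝ) * (k - 1) / 2) := by
        have h6 : (s' - s) / 2 * ((k : ℝ) - (s' + 3 * s) / (2 * (s' - s))) ^ 2 =
            (s' - s) / 2 * (k : ℝ) ^ 2 - (s' + 3 * s) / 2 * k +
              (s' + 3 * s) ^ 2 / (8 * (s' - s)) := by
          field_simp
          ring
        rw [h6] at h4
        linarith
      have h7 : (s' + 3 * s) ^ 2 / (8 * (s' - s)) + s ≤ B := by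
        rw [hB, ← sub_nonneg]
        have h8 : (3 * s' + s) ^ 2 / (8 * (s' - s)) - ((s' + 3 * s) ^ 2 / (8 * (s' - s)) + s) =
            s' := by
          field_simp
          ring
        rw [h8]
        exact hs'.le
      linarith
    have h4 : (2 : ℝ) ^ (s' * ((k : ℝ) * (k - 1) / 2)) ≤ c₀ ^ s' * (1 / δ) ^ s' := by
      have h5 : (2 : ℝ) ^ (s' * ((k : ℝ) * (k - 1) / 2)) = (1 / tau k) ^ s' := by
        rw [tau, one_div, ← Real.rpow_neg (by norm_num), neg_neg, ← Real.rpow_mul (by norm_num)]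
        ring_nf
      rw [h5, ← Real.mul_rpow hc0.le (by positivity)]
      refine Real.rpow_le_rpow (by have := tau_pos k; positivity) ?_ hs'.le
      rw [mul_one_div, div_le_div_iff₀ (tau_pos k) hδ]
      linarith
    calc _ ≤ ((ps D (k + 1)).card : ℝ) * 3 := h1
      _ ≤ (C₁ * (2 : ℝ) ^ (s * ((((k + 1 : ℕ) : ℝ)) * (((k + 1 : ℕ) : ℝ) + 1) / 2))) * 3 :=
          mul_le_mul_of_nonneg_right h2 (by norm_num)
      _ ≤ (C₁ * ((2 : ℝ) ^ B * (c₀ ^ s' * (1 / δ) ^ s'))) * 3 := by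
          refine mul_le_mul_of_nonneg_right (mul_le_mul_of_nonneg_left ?_ hC₁.le) (by norm_num)
          exact h3.trans (mul_le_mul_of_nonneg_left h4 (by positivity))
      _ = _ := by ring

end Pool.Agent.H89IP
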