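import Pool.Agent.H89IP.Stm

set_option autoImplicit false

open Finset Filter Topology MeasureTheory

namespace Pool.Agent.H89IP

open Pool.Agent.Results.MP_4b405e_nt.ExactExponent (E coverNum upperMinkowski)

theorem coverNum_closure {n : ℕ} {S : Set (E n)} (hS : Bornology.IsBounded S) {δ : ℝ}
    (hδ : 0 < δ) : coverNum (closure S) δ ≤ coverNum S δ := by
  obtain ⟨U, hU1, hU2⟩ := V11295.ProgAny.exists_cover hS hδ
  refine Nat.sInf_le ⟨fun i => closure (U i), fun i x hx y hy => ?_, ?_⟩
  · have h1 : dist x y ∈ closure (Set.Iic δ) :=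
      map_mem_closure₂ (f := fun x y : E n => dist x y) continuous_dist hx hy
        fun a ha b hb => hU1 i a ha b hb
    rwa [isClosed_Iic.closure_eq] at h1
  · calc closure S ⊆ closure (⋃ i, U i) := closure_mono hU2
      _ = ⋃ i, closure (U i) := closure_iUnion_of_finite _

theorem t_CLO : S_CLO := by
  intro n S hS
  unfold upperMinkowski
  refine limsup_le_limsup ?_ (by isBoundedDefault) (by isBoundedDefault)
  have h2 : ∀ᶠ δ : ℝ in 𝓝[>] 0, δ < 1 := by
    apply eventually_nhdsWithin_of_eventually_nhds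
    exact eventually_lt_nhds one_pos
  filter_upwards [h2, eventually_mem_nhdsWithin] with δ h3 h4
  have hδ : (0 : ℝ) < δ := h4
  rw [EReal.coe_le_coe_iff]
  have h5 : 0 ≤ Real.log (1 / δ) := Real.log_nonneg (by
    rw [le_div_iff₀ hδ]
    linarith)
  refine div_le_div_of_nonneg_right ?_ h5
  have h6 := coverNum_closure hS hδ
  rcases Nat.eq_zero_or_pos (coverNum (closure S) δ) with h7 | h7
  · rw [h7, Nat.cast_zero, Real.log_zero]
    exact Real.log_natCast_nonneg _
  · exact Real.log_le_log (by exact_mod_cast h7) (by exact_mod_cast h6)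

end Pool.Agent.H89IP
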