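import Pool.Agent.H89IP.Stm

/-!
# Project IP, piece CTR: compression and recentring
-/

set_option autoImplicit false

open Finset

namespace Pool.Agent.H89IP

open Pool.Agent.H88RD (Pr)

namespace CTR

/-- the intervals to the right of the points of `D` -/
noncomputable def En (M : ℕ) (D : Finset ℤ) : Finset ℤ := D.biUnion fun d => Finset.Ico d (d + M)

/-- the compression -/
noncomputable def phi (M : ℕ) (D : Finset ℤ) (x : ℤ) : ℤ := (((En M D).filter fun y => y < x).card : ℤ)

theorem card_En (M : ℕ) (D : Finset ℤ) : (En M D).card ≤ D.card * M := by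
  unfold En
  refine Finset.card_biUnion_le.trans ?_
  rw [Finset.card_eq_sum_ones, Finset.sum_mul]
  refine Finset.sum_le_sum fun d _ => ?_
  rw [Int.card_Ico]
  simp

theorem phi_bound (M : ℕ) (D : Finset ℤ) (x : ℤ) : 0 ≤ phi M D x ∧ phi M D x ≤ M * D.card := by
  unfold phi
  refine ⟨by positivity, ?_⟩
  have h1 := (Finset.card_filter_le (En M D) fun y => y < x).trans (card_En M D)
  have h2 : (((En M D).filter fun y => y < x).card : ℤ) ≤ (D.card * M : ℕ) := by
    exact_mod_cast h1
  push_cast at h2
  linarith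

theorem phi_add (M : ℕ) (D : Finset ℤ) (x r : ℤ) (hx : x ∈ D) (h0 : 0 ≤ r) (hr : r < M) :
    phi M D (x + r) = phi M D x + r := by
  unfold phi
  have h1 : ((En M D).filter fun y => y < x + r) =
      ((En M D).filter fun y => y < x) ∪ Finset.Ico x (x + r) := by
    ext y
    rw [Finset.mem_union, Finset.mem_filter, Finset.mem_filter, Finset.mem_Ico]
    constructor
    · rintro ⟨h1, h2⟩
      rcases lt_or_ge y x with h | h
      · exact Or.inl ⟨h1, h⟩
      · exact Or.inr ⟨h, h2⟩
    · rintro (⟨h1, h2⟩ | ⟨h1, h2⟩)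
      · exact ⟨h1, by linarith⟩
      · refine ⟨?_, h2⟩
        unfold En
        rw [Finset.mem_biUnion]
        exact ⟨x, hx, Finset.mem_Ico.mpr ⟨h1, by linarith⟩⟩
  have h2 : Disjoint ((En M D).filter fun y => y < x) (Finset.Ico x (x + r)) := by
    rw [Finset.disjoint_left]
    intro y hy hy2
    rw [Finset.mem_filter] at hy
    rw [Finset.mem_Ico] at hy2
    linarith [hy.2, hy2.1]
  rw [h1, Finset.card_union_of_disjoint h2, Int.card_Ico]
  push_cast
  rw [Int.toNat_of_nonneg (by linarith)]
  ring

end CTR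

theorem t_CTR : S_CTR := by
  intro K M Δ _ h
  refine ⟨Δ.image (CTR.phi M Δ), Finset.card_image_le, ?_, ?_⟩
  · intro y hy
    obtain ⟨x, _, rfl⟩ := Finset.mem_image.mp hy
    exact CTR.phi_bound M Δ x
  · intro r h0 hr
    obtain ⟨a, ha⟩ := h r h0 hr
    have key : ∀ j : ℕ, j < 2 * K + 1 → CTR.phi M Δ (a + j * r) = CTR.phi M Δ a + j * r := by
      intro j
      induction j with
      | zero =>
        intro _
        simp
      | succ j ih =>
        intro hj
        have h1 := CTR.phi_add M Δ (a + j * r) r (ha j (by omega)) h0 hr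
        rw [ih (by omega)] at h1
        have e : a + ((j + 1 : ℕ) : ℤ) * r = a + j * r + r := by
          push_cast
          ring
        rw [e, h1]
        push_cast
        ring
    refine ⟨CTR.phi M Δ a + K * r, fun j hj => ?_⟩
    rw [abs_le] at hj
    obtain ⟨i, hi⟩ : ∃ i : ℕ, (i : ℤ) = K + j := ⟨(K + j).toNat, Int.toNat_of_nonneg (by linarith)⟩
    have hi2 : i < 2 * K + 1 := by omega
    have e : CTR.phi M Δ a + K * r + j * r = CTR.phi M Δ (a + i * r) := by
      rw [key i hi2, hi]
      ring
    rw [e]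
    exact Finset.mem_image_of_mem _ (ha i hi2)

end Pool.Agent.H89IP
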