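import Pool.Agent.H89IP.Stm

/-!
Piece DIG of project IP (helper45).
-/

set_option autoImplicit false

open Finset Filter Topology MeasureTheory

namespace Pool.Agent.H89IP

theorem dig_P_succ (l : ℕ) : P (l + 1) = 2 ^ (l + 2) * P l := by
  have h : (l + 1 + 1) * (l + 1 + 2) / 2 = (l + 1) * (l + 2) / 2 + (l + 2) := by
    have e : (l + 1 + 1) * (l + 1 + 2) = (l + 1) * (l + 2) + 2 * (l + 2) := by ring
    rw [e, Nat.add_mul_div_left _ _ (by norm_num)]
  unfold P
  rw [h, pow_add, mul_comm]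

theorem dig_P_zero : P 0 = 2 := by
  unfold P
  norm_num

theorem dig_P_pos (l : ℕ) : 0 < P l := by
  unfold P
  positivity

theorem dig_P_ge (l : ℕ) : (2 : ℝ) ^ l ≤ P l := by
  unfold P
  apply pow_le_pow_right₀ (by norm_num)
  rw [Nat.le_div_iff_mul_le (by norm_num)]
  nlinarith

theorem t_DIG : S_DIG := by
  intro x hx0 hx1
  let f : ℕ → ℤ := fun l => ⌊x * P l⌋
  let d : ℕ → ℤ := fun l => match l with
    | 0 => f 0
    | (l + 1) => f (l + 1) - 2 ^ (l + 2) * f l
  have hd : ∀ l, 0 ≤ d l ∧ d l < 2 ^ (l + 1) := by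
    intro l
    rcases l with _ | l
    · change 0 ≤ ⌊x * P 0⌋ ∧ ⌊x * P 0⌋ < 2 ^ (0 + 1)
      rw [dig_P_zero]
      refine ⟨Int.floor_nonneg.2 (by positivity), ?_⟩
      rw [Int.floor_lt]
      push_cast
      linarith
    · change 0 ≤ ⌊x * P (l + 1)⌋ - 2 ^ (l + 2) * ⌊x * P l⌋ ∧
        ⌊x * P (l + 1)⌋ - 2 ^ (l + 2) * ⌊x * P l⌋ < 2 ^ (l + 1 + 1)
      have hb : (0 : ℝ) < 2 ^ (l + 2) := by positivity
      have h1 := Int.floor_le (x * P l)
      have h2 := Int.lt_floor_add_one (x * P l)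
      constructor
      · rw [sub_nonneg, Int.le_floor, dig_P_succ]
        push_cast
        nlinarith
      · rw [sub_lt_iff_lt_add, Int.floor_lt, dig_P_succ]
        push_cast
        rw [show l + 1 + 1 = l + 2 by ring]
        nlinarith
  have hsum : ∀ m, ∑ l ∈ range (m + 1), (d l : ℝ) / P l = (f m : ℝ) / P m := by
    intro m
    induction m with
    | zero => simp [d]
    | succ m ih =>
      rw [sum_range_succ, ih]
      have e : d (m + 1) = f (m + 1) - 2 ^ (m + 2) * f m := rfl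
      have hp := (dig_P_pos m).ne'
      rw [e, dig_P_succ]
      push_cast
      field_simp
      ring
  refine ⟨d, hd, ?_⟩
  rw [hasSum_iff_tendsto_nat_of_nonneg (fun l => div_nonneg (by exact_mod_cast (hd l).1) (dig_P_pos l).le)]
  rw [← tendsto_add_atTop_iff_nat 1]
  have e : (fun m => ∑ l ∈ range (m + 1), (d l : ℝ) / P l) = fun m => (f m : ℝ) / P m := funext hsum
  rw [e]
  have h0 : Tendsto (fun m : ℕ => x - (1 / 2 : ℝ) ^ m) atTop (𝓝 x) := by
    have := (tendsto_pow_atTop_nhds_zero_of_lt_one (by norm_num : (0 : ℝ) ≤ 1 / 2) (by norm_num)).const_sub x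
    rwa [sub_zero] at this
  refine tendsto_of_tendsto_of_tendsto_of_le_of_le h0 tendsto_const_nhds (fun m => ?_) (fun m => ?_)
  · change x - (1 / 2 : ℝ) ^ m ≤ (⌊x * P m⌋ : ℝ) / P m
    rw [le_div_iff₀ (dig_P_pos m)]
    have h1 := Int.lt_floor_add_one (x * P m)
    have h2 : 1 ≤ (1 / 2 : ℝ) ^ m * P m := by
      have h3 := dig_P_ge m
      have h4 : (1 / 2 : ℝ) ^ m * 2 ^ m = 1 := by
        rw [← mul_pow]
        norm_num
      have h5 : (0 : ℝ) < (1 / 2 : ℝ) ^ m := by positivity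
      nlinarith
    nlinarith
  · change (⌊x * P m⌋ : ℝ) / P m ≤ x
    rw [div_le_iff₀ (dig_P_pos m)]
    exact Int.floor_le _

end Pool.Agent.H89IP
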