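import Pool.Agent.H89IP.Stm

/-!
# Project IP, piece DIL: covering numbers of dilates
-/

set_option autoImplicit false

namespace Pool.Agent.H89IP

open Pool.Agent.Results.MP_4b405e_nt.ExactExponent (E coverNum)

theorem t_DIL : S_DIL := by
  intro n R q _ hq δ _
  have hq0 : 0 < |q| := abs_pos.2 hq
  unfold coverNum
  congr 1
  ext N
  constructor
  · rintro ⟨U, hU, hR⟩
    refine ⟨fun i => {r | q • r ∈ U i}, fun i x hx y hy => ?_, fun r hr => ?_⟩
    · have h := hU i _ hx _ hy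
      rw [dist_smul₀, Real.norm_eq_abs] at h
      rw [le_div_iff₀ hq0, mul_comm]
      exact h
    · obtain ⟨i, hi⟩ := Set.mem_iUnion.1 (hR ⟨r, hr, rfl⟩)
      exact Set.mem_iUnion.2 ⟨i, hi⟩
  · rintro ⟨U, hU, hR⟩
    refine ⟨fun i => (fun r => q • r) '' U i, fun i x hx y hy => ?_, ?_⟩
    · obtain ⟨x, hx, rfl⟩ := hx
      obtain ⟨y, hy, rfl⟩ := hy
      have h := hU i _ hx _ hy
      rw [le_div_iff₀ hq0, mul_comm] at h
      change dist (q • x) (q • y) ≤ δ
      rw [dist_smul₀, Real.norm_eq_abs]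
      exact h
    · rintro _ ⟨r, hr, rfl⟩
      obtain ⟨i, hi⟩ := Set.mem_iUnion.1 (hR hr)
      exact Set.mem_iUnion.2 ⟨i, r, hi, rfl⟩

end Pool.Agent.H89IP
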