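import Pool.Agent.H89IP.Stm
import Pool.Agent.Results.MP_4b405e_nt.ExponentBound

/-!
# Project IP: assembly
-/

set_option autoImplicit false

open Finset Filter Topology MeasureTheory

namespace Pool.Agent.H89IP

open Pool.Agent.Results.MP_4b405e_nt.ExactExponent (E coverNum upperMinkowski infDim HasProgressions)
open Pool.Agent.H88RD (Pr)
open Pool.Agent.Helper66x.AK (cubeOf)

/-- the facts about the exponents which are used -/
structure Exps (f : ℕ → ℝ) (L : ℝ) : Prop where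
  half : ∀ k, 2 ≤ k → 1 / 2 ≤ f k
  le : ∀ k, 2 ≤ k → f k ≤ L
  lim : Tendsto f atTop (𝓝 L)
  one : L ≤ 1
  low : 1 / 1.669587 ≤ L
  dim : ∀ k, 2 ≤ k → ∀ n : ℕ, infDim n k upperMinkowski = ((n * f k : ℝ) : EReal)
  digit : ∀ k, 2 ≤ k → ∀ s : ℝ, f k < s → ∃ M : ℕ, 2 ≤ M ∧ ∃ Δ : Finset ℤ, Pr k M Δ ∧
    (Δ.card : ℝ) ≤ (M : ℝ) ^ s
  cover : ∀ k, 2 ≤ k → ∃ w : Fin k → ℝ, (∀ j, 0 ≤ w j) ∧ ∑ j, w j = 1 ∧
    ∀ n : ℕ, ∃ C : ℝ, 0 < C ∧ ∀ (R : Set (E n)) (B : Fin k → Set (E n)),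
      (∀ j, Bornology.IsBounded (B j)) →
      (∀ r ∈ R, ∃ a : E n, ∀ j : Fin k, a + ((j : ℕ) : ℝ) • r ∈ B j) →
      ∀ δ : ℝ, 0 < δ → (coverNum R δ : ℝ) ^ f k ≤ C * ∏ j, (coverNum (B j) δ : ℝ) ^ w j

theorem infDim_mono (n : ℕ) {k k' : ℕ} (h : k ≤ k') :
    infDim n k upperMinkowski ≤ infDim n k' upperMinkowski := by
  unfold infDim
  refine iInf_mono fun B => iInf_mono fun hB => ?_
  refine le_iInf fun hP => ?_
  refine iInf_le_of_le ?_ le_rfl
  intro r hr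
  obtain ⟨a, ha⟩ := hP r hr
  exact ⟨a, fun j hj => ha j (hj.trans_le h)⟩

theorem exists_exps : ∃ (f : ℕ → ℝ) (L : ℝ), Exps f L := by
  obtain ⟨hmain, -⟩ := Pool.Agent.Results.MP_4b405e_nt.ExactExponent.result
  have h1 : ∀ k : ℕ, ∃ f : ℝ, 2 ≤ k → 1 / 2 ≤ f ∧ f ≤ 1 ∧
      (∀ n : ℕ, infDim n k upperMinkowski = ((n * f : ℝ) : EReal)) ∧
      (∀ s : ℝ, f < s → ∃ M : ℕ, 2 ≤ M ∧ ∃ Δ : Finset ℤ, Pr k M Δ ∧ (Δ.card : ℝ) ≤ (M : ℝ) ^ s) ∧
      ∃ w : Fin k → ℝ, (∀ j, 0 ≤ w j) ∧ ∑ j, w j = 1 ∧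
      ∀ n : ℕ, ∃ C : ℝ, 0 < C ∧ ∀ (R : Set (E n)) (B : Fin k → Set (E n)),
        (∀ j, Bornology.IsBounded (B j)) →
        (∀ r ∈ R, ∃ a : E n, ∀ j : Fin k, a + ((j : ℕ) : ℝ) • r ∈ B j) →
        ∀ δ : ℝ, 0 < δ → (coverNum R δ : ℝ) ^ f ≤ C * ∏ j, (coverNum (B j) δ : ℝ) ^ w j := by
    intro k
    rcases le_or_gt 2 k with hk | hk
    · obtain ⟨f, w, h1, h2, h3, h4, h5, h6, h7, h8, h9, h10⟩ := hmain k hk
      refine ⟨f, fun _ => ⟨h1, h2, fun n => (h6 n).2.1, fun s hs => ?_, w, h3, h5, h9⟩⟩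
      obtain ⟨M, hM, D, hD, hc⟩ := h8 s hs 2
      exact ⟨M, hM, D, hD, hc⟩
    · exact ⟨0, fun h => absurd h (by omega)⟩
  choose f hf using h1
  have hle : ∀ k, 2 ≤ k → ∀ k', k ≤ k' → f k ≤ f k' := by
    intro k hk k' hkk
    have h2 := infDim_mono 1 hkk
    rw [(hf k hk).2.2.1 1, (hf k' (hk.trans hkk)).2.2.1 1, EReal.coe_le_coe_iff] at h2
    simpa using h2
  have hmono : Monotone fun k => f (k + 2) := by
    intro a b hab
    exact hle (a + 2) (by omega) (b + 2) (by omega)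
  have hbdd : BddAbove (Set.range fun k => f (k + 2)) := by
    refine ⟨1, ?_⟩
    rintro x ⟨k, rfl⟩
    exact (hf (k + 2) (by omega)).2.1
  have hlim := tendsto_atTop_ciSup hmono hbdd
  have hL : ∀ k, 2 ≤ k → f k ≤ ⨆ k, f (k + 2) := by
    intro k hk
    have h2 := le_ciSup hbdd (k - 2)
    have e : k - 2 + 2 = k := by omega
    simpa only [e] using h2
  refine ⟨f, ⨆ k, f (k + 2), fun k hk => (hf k hk).1, hL, ?_, ?_, ?_,
    fun k hk => (hf k hk).2.2.1, fun k hk => (hf k hk).2.2.2.1, fun k hk => (hf k hk).2.2.2.2⟩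
  · exact (tendsto_add_atTop_iff_nat 2).mp hlim
  · exact ciSup_le fun k => (hf (k + 2) (by omega)).2.1
  · obtain ⟨k₀, h2, -⟩ := Pool.Agent.Results.MP_4b405e_nt.ExponentBound.result
    have h3 := h2 1 (max k₀ 2) (le_max_left _ _)
    have h4 : Pool.Agent.Results.MP_4b405e_nt.ExponentBound.fM 1 (max k₀ 2) =
        infDim 1 (max k₀ 2) upperMinkowski := rfl
    rw [h4, (hf _ (le_max_right _ _)).2.2.1 1, EReal.coe_le_coe_iff] at h3
    have h5 := hL (max k₀ 2) (le_max_right _ _)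
    have h6 : ((1 : ℕ) : ℝ) = 1 := Nat.cast_one
    rw [h6, one_mul] at h3
    exact h3.trans h5

theorem Ctr.mono {K K' M : ℕ} {Δ : Finset ℤ} (h : Ctr K' M Δ) (hK : K ≤ K') : Ctr K M Δ := by
  intro r h0 h1
  obtain ⟨a, ha⟩ := h r h0 h1
  exact ⟨a, fun j hj => ha j (hj.trans (by exact_mod_cast hK))⟩

/-- digit sets with `|Δ| ≤ M ^ s` and small elements -/
theorem big_ctr (hB : S_BIG) (hC : S_CTR) {f : ℕ → ℝ} {L : ℝ} (h : Exps f L) (K : ℕ) (s : ℝ)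
    (hs : L < s) : ∃ M₀ : ℕ, ∀ M : ℕ, M₀ ≤ M → ∃ Δ : Finset ℤ, Ctr K M Δ ∧
      (∀ x ∈ Δ, 0 ≤ x ∧ x ≤ (M : ℤ) ^ 2) ∧ (Δ.card : ℝ) ≤ (M : ℝ) ^ s := by
  rcases lt_or_ge L 1 with hL | hL
  · -- the exponent `s' < 1`
    obtain ⟨s', h1, h2⟩ := exists_between (lt_min hs hL)
    rw [lt_min_iff] at h2
    have hk : 2 ≤ 2 * (K + 1) + 1 := by omega
    have hf0 : 0 ≤ f (2 * (K + 1) + 1) := by linarith [h.half _ hk]
    obtain ⟨M₀, hM₀⟩ := hB (2 * (K + 1) + 1) (f (2 * (K + 1) + 1)) s' hf0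
      ((h.le _ hk).trans_lt h1) (h.digit _ hk)
    refine ⟨max M₀ 1, fun M hM => ?_⟩
    have hM1 : 1 ≤ M := (le_max_right _ _).trans hM
    have hM1' : (1 : ℝ) ≤ M := by exact_mod_cast hM1
    obtain ⟨Δ, hΔ, hΔ2⟩ := hM₀ M ((le_max_left _ _).trans hM)
    obtain ⟨Δ', h3, h4, h5⟩ := hC (K + 1) M Δ hM1 hΔ
    have h6 : (Δ.card : ℝ) ≤ M := by
      refine hΔ2.trans ?_
      calc (M : ℝ) ^ s' ≤ (M : ℝ) ^ (1 : ℝ) := Real.rpow_le_rpow_of_exponent_le hM1' h2.2.le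
        _ = M := Real.rpow_one _
    have h7 : Δ.card ≤ M := by exact_mod_cast h6
    refine ⟨Δ', h5.mono (by omega), fun x hx => ⟨(h4 x hx).1, ?_⟩, ?_⟩
    · refine (h4 x hx).2.trans ?_
      rw [sq]
      have : (Δ.card : ℤ) ≤ M := by exact_mod_cast h7
      exact mul_le_mul_of_nonneg_left this (by positivity)
    · calc (Δ'.card : ℝ) ≤ Δ.card := by exact_mod_cast h3
        _ ≤ (M : ℝ) ^ s' := hΔ2
        _ ≤ (M : ℝ) ^ s := Real.rpow_le_rpow_of_exponent_le hM1' h2.1.le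
  · -- the trivial digit sets
    have hs1 : 1 < s := lt_of_le_of_lt hL hs
    obtain ⟨M₀, hM₀⟩ : ∃ M₀ : ℕ, ∀ M : ℕ, M₀ ≤ M → (2 * K + 1 : ℝ) ≤ (M : ℝ) ^ (s - 1) := by
      have h1 : Tendsto (fun M : ℕ => (M : ℝ) ^ (s - 1)) atTop atTop :=
        (tendsto_rpow_atTop (by linarith)).comp tendsto_natCast_atTop_atTop
      exact eventually_atTop.mp (h1.eventually_ge_atTop (2 * K + 1 : ℝ))
    refine ⟨max M₀ (2 * K + 1), fun M hM => ⟨Finset.Ico 0 (2 * K * M + 1 : ℕ), ?_, ?_, ?_⟩⟩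
    · intro r h0 h1
      refine ⟨K * M, fun j hj => ?_⟩
      rw [abs_le] at hj
      rw [Finset.mem_Ico]
      push_cast
      have h2 : (0 : ℤ) ≤ K := by positivity
      constructor
      · nlinarith
      · nlinarith
    · intro x hx
      rw [Finset.mem_Ico] at hx
      refine ⟨hx.1, ?_⟩
      have h2 : 2 * K + 1 ≤ M := (le_max_right _ _).trans hM
      have h3 : ((2 * K + 1 : ℕ) : ℤ) ≤ M := by exact_mod_cast h2
      have h4 := hx.2
      push_cast at h3 h4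
      have h5 : (0 : ℤ) ≤ M := by positivity
      nlinarith
    · rw [Int.card_Ico, sub_zero, Int.toNat_natCast]
      have h2 := hM₀ M ((le_max_left _ _).trans hM)
      have h3 : 1 ≤ M := le_trans (by omega) ((le_max_right _ _).trans hM)
      have h4 : (1 : ℝ) ≤ M := by exact_mod_cast h3
      have h5 : (M : ℝ) ^ s = (M : ℝ) ^ (s - 1) * M := by
        rw [← Real.rpow_add_one (lt_of_lt_of_le one_pos h4).ne', sub_add_cancel]
      rw [h5]
      push_cast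
      nlinarith

/-- coordinates with a bound on the covering numbers -/
theorem upper_cube (hCel : S_CEL) {L : ℝ} (hL : 0 ≤ L) {Δ : ℕ → Finset ℤ}
    (hΔ : ∀ s : ℝ, L < s → ∀ᶠ l in atTop, ((Δ l).card : ℝ) ≤ (2 : ℝ) ^ (((l : ℝ) + 1) * s))
    (n c l₁ : ℕ) (s : ℝ) (hs : L < s) :
    ∃ C : ℝ, 0 < C ∧ ∀ δ : ℝ, 0 < δ → δ ≤ 1 →
      (coverNum (cubeOf n (X c l₁ Δ)) δ : ℝ) ≤ C * (1 / δ) ^ (n * s) := by
  obtain ⟨s₁, h1, h2⟩ := exists_between hs
  obtain ⟨C, hC, hF⟩ := hCel c l₁ Δ s₁ s (hL.trans h1.le) h2 (hΔ s₁ h1)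
  refine ⟨C ^ n * (((4 * (n + 1)) ^ n : ℕ) : ℝ), by positivity, fun δ hδ hδ1 => ?_⟩
  obtain ⟨F, hF1, hF2⟩ := hF δ hδ hδ1
  have h1 : coverNum (cubeOf n (X c l₁ Δ)) δ ≤
      (∏ _i : Fin n, F.card) * (4 * (n + 1)) ^ n :=
    Pool.Agent.Helper66x.AK.cover_cells hδ (B := cubeOf n (X c l₁ Δ)) (fun _ => F)
      fun y hy i => hF1 (y i) (hy i)
  have h2 : ((∏ _i : Fin n, F.card : ℕ) : ℝ) ≤ (C * (1 / δ) ^ s) ^ n :=
    Pool.Agent.Helper66x.AK.prod_card_le (F := fun _ => F) fun _ => hF2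
  have h3 : (C * (1 / δ) ^ s) ^ n = C ^ n * (1 / δ) ^ (n * s) := by
    rw [mul_pow, ← Real.rpow_natCast ((1 / δ) ^ s) n, ← Real.rpow_mul (by positivity),
      mul_comm s]
  rw [h3] at h2
  calc (coverNum (cubeOf n (X c l₁ Δ)) δ : ℝ) ≤
        (((∏ _i : Fin n, F.card) * (4 * (n + 1)) ^ n : ℕ) : ℝ) := by exact_mod_cast h1
    _ = ((∏ _i : Fin n, F.card : ℕ) : ℝ) * (((4 * (n + 1)) ^ n : ℕ) : ℝ) := by rw [Nat.cast_mul]
    _ ≤ (C ^ n * (1 / δ) ^ (n * s)) * (((4 * (n + 1)) ^ n : ℕ) : ℝ) :=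
        mul_le_mul_of_nonneg_right h2 (Nat.cast_nonneg _)
    _ = C ^ n * (((4 * (n + 1)) ^ n : ℕ) : ℝ) * (1 / δ) ^ (n * s) := by ring

theorem bounded_cube (hCel : S_CEL) {L : ℝ} (hL : 0 ≤ L) {Δ : ℕ → Finset ℤ}
    (hΔ : ∀ s : ℝ, L < s → ∀ᶠ l in atTop, ((Δ l).card : ℝ) ≤ (2 : ℝ) ^ (((l : ℝ) + 1) * s))
    (n c l₁ : ℕ) : Bornology.IsBounded (cubeOf n (X c l₁ Δ)) := by
  obtain ⟨C, hC, hF⟩ := hCel c l₁ Δ (L + 1) (L + 2) (by linarith) (by linarith)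
    (hΔ (L + 1) (by linarith))
  obtain ⟨F, hF1, -⟩ := hF 1 one_pos le_rfl
  obtain ⟨A, hA⟩ : ∃ A : ℕ, ∀ z ∈ F, |z| ≤ (A : ℤ) := Pool.Agent.Helper66x.AK.exists_L F
  rw [Metric.isBounded_iff_subset_closedBall (0 : E n)]
  refine ⟨Real.sqrt (n * (A + 1) ^ 2), fun x hx => ?_⟩
  rw [Metric.mem_closedBall, dist_zero_right, EuclideanSpace.norm_eq]
  refine Real.sqrt_le_sqrt ?_
  calc ∑ i, ‖x i‖ ^ 2 ≤ ∑ _i : Fin n, ((A : ℝ) + 1) ^ 2 := by
        refine Finset.sum_le_sum fun i _ => ?_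
        have h1 := hA _ (hF1 (x i) (hx i))
        rw [div_one, abs_le] at h1
        have h2 : (-(A : ℝ)) ≤ ⌊x i⌋ := by exact_mod_cast h1.1
        have h3 : ((⌊x i⌋ : ℤ) : ℝ) ≤ A := by exact_mod_cast h1.2
        have h4 := Int.floor_le (x i)
        have h5 := Int.lt_floor_add_one (x i)
        have h6 : |x i| ≤ A + 1 := by
          rw [abs_le]
          constructor <;> linarith
        rw [Real.norm_eq_abs]
        exact pow_le_pow_left₀ (abs_nonneg _) h6 2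
    _ = n * ((A : ℝ) + 1) ^ 2 := by
        rw [Finset.sum_const, Finset.card_univ, Fintype.card_fin, nsmul_eq_mul]

/-- the dilated cubes -/
theorem upper_dil (hCel : S_CEL) (hDil : S_DIL) {L : ℝ} (hL : 0 ≤ L) {Δ : ℕ → Finset ℤ}
    (hΔ : ∀ s : ℝ, L < s → ∀ᶠ l in atTop, ((Δ l).card : ℝ) ≤ (2 : ℝ) ^ (((l : ℝ) + 1) * s))
    (n c l₁ m : ℕ) (hm : 1 ≤ m) :
    upperMinkowski ((fun r : E n => (m : ℝ) • r) '' cubeOf n (X c l₁ Δ)) ≤
      ((n * L : ℝ) : EReal) := by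
  have hm' : (1 : ℝ) ≤ m := by exact_mod_cast hm
  have hm0 : (0 : ℝ) < m := by linarith
  have key : ∀ s : ℝ, L < s →
      upperMinkowski ((fun r : E n => (m : ℝ) • r) '' cubeOf n (X c l₁ Δ)) ≤
        ((n * s : ℝ) : EReal) := by
    intro s hs
    obtain ⟨C, hC, h1⟩ := upper_cube hCel hL hΔ n c l₁ s hs
    have hs0 : 0 ≤ s := hL.trans hs.le
    refine Pool.Agent.Helper66x.AK.upper_le (C := C * (m : ℝ) ^ (n * s)) (by positivity)
      (by positivity) fun δ hδ hδ1 => ?_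
    have h2 := hDil n (cubeOf n (X c l₁ Δ)) m (bounded_cube hCel hL hΔ n c l₁) hm0.ne' δ hδ
    rw [abs_of_pos hm0] at h2
    change (coverNum ((fun r : E n => (m : ℝ) • r) '' cubeOf n (X c l₁ Δ)) δ : ℝ) ≤ _
    rw [h2]
    refine (h1 (δ / m) (by positivity) ?_).trans (le_of_eq ?_)
    · rw [div_le_one hm0]
      linarith
    · rw [mul_assoc, ← Real.mul_rpow hm0.le (by positivity)]
      congr 2
      field_simp
  refine le_of_forall_gt fun x hx => ?_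
  obtain ⟨y, hy, hyx⟩ := EReal.lt_iff_exists_real_btwn.mp hx
  have hy' : n * L < y := by exact_mod_cast hy
  rcases Nat.eq_zero_or_pos n with hn | hn
  · refine lt_of_le_of_lt (key (L + 1) (by linarith)) ?_
    subst hn
    rw [Nat.cast_zero, zero_mul] at hx ⊢
    exact hx
  · have hn' : (0 : ℝ) < n := by exact_mod_cast hn
    refine lt_of_le_of_lt (key (y / n) ?_) ?_
    · rw [lt_div_iff₀ hn']
      linarith
    · rw [mul_div_cancel₀ _ hn'.ne']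
      exact hyx

/-- one coordinate: infinite progressions -/
theorem coord (hDig : S_DIG) {K : ℕ → ℕ} {Δ : ℕ → Finset ℤ} {l₁ : ℕ → ℕ}
    (hl : ∀ N l : ℕ, l₁ N ≤ l → N ≤ K l)
    (hC : ∀ l, Ctr (K l) (2 ^ (l + 1)) (Δ l)) (hΔ : ∀ l, ∀ x ∈ Δ l, 0 ≤ x ∧ x ≤ 4 ^ (l + 1))
    (x : ℝ) (h0 : 0 ≤ x) (h1 : x < 1) : ∃ a : ℝ, ∀ j : ℤ,
      a + j * x ∈ X (j.natAbs + 1) (l₁ j.natAbs) Δ := by
  obtain ⟨d, hd, hsum⟩ := hDig x h0 h1
  choose a ha using fun l => hC l (d l) (hd l).1 (by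
    have := (hd l).2
    push_cast
    exact this)
  have hPpos : ∀ l, 0 < P l := fun l => by
    unfold P
    positivity
  have ha0 : ∀ l, 0 ≤ a l ∧ a l ≤ 4 ^ (l + 1) := by
    intro l
    have h2 := hΔ l _ (ha l 0 (by simp))
    rw [zero_mul, add_zero] at h2
    exact h2
  -- summability of the sequence `a l / P l`
  have hs : Summable fun l => (a l : ℝ) / P l := by
    have h3 : Summable fun l : ℕ => (4 : ℝ) ^ (l + 1) / P l := by
      refine summable_of_ratio_norm_eventually_le (r := 1 / 2) (by norm_num) ?_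
      filter_upwards [eventually_ge_atTop 1] with l hl1
      have e : P (l + 1) = (2 : ℝ) ^ (l + 2) * P l := by
        unfold P
        rw [← pow_add]
        congr 1
        have : (l + 1 + 1) * (l + 1 + 2) = (l + 1) * (l + 2) + (l + 2) * 2 := by ring
        rw [this, Nat.add_mul_div_right _ _ (by norm_num : 0 < 2)]
        ring
      have hP := hPpos l
      rw [Real.norm_of_nonneg (by have := hPpos (l + 1); positivity),
        Real.norm_of_nonneg (by positivity), e]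
      have h5 : (8 : ℝ) ≤ 2 ^ (l + 2) := by
        calc (8 : ℝ) = 2 ^ 3 := by norm_num
          _ ≤ 2 ^ (l + 2) := pow_le_pow_right₀ (by norm_num) (by omega)
      rw [div_le_iff₀ (by positivity)]
      have h6 : (4 : ℝ) ^ (l + 1 + 1) = 4 * 4 ^ (l + 1) := by ring
      rw [h6]
      have h7 : (0 : ℝ) < 4 ^ (l + 1) := by positivity
      have h8 : 1 / 2 * (4 ^ (l + 1) / P l) * (2 ^ (l + 2) * P l) =
          1 / 2 * 4 ^ (l + 1) * 2 ^ (l + 2) := by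
        field_simp
      rw [h8]
      nlinarith
    refine Summable.of_nonneg_of_le (fun l => ?_) (fun l => ?_) h3
    · have h4 : (0 : ℝ) ≤ a l := by exact_mod_cast (ha0 l).1
      have := hPpos l
      positivity
    · have h4 : (a l : ℝ) ≤ 4 ^ (l + 1) := by exact_mod_cast (ha0 l).2
      have := hPpos l
      gcongr
  refine ⟨∑' l, (a l : ℝ) / P l, fun j => ⟨fun l => a l + j * d l, fun l => ?_, fun l hl2 => ?_, ?_⟩⟩
  · have h2 : |a l| ≤ 4 ^ (l + 1) := by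
      rw [abs_of_nonneg (ha0 l).1]
      exact (ha0 l).2
    have h3 : |d l| ≤ 4 ^ (l + 1) := by
      rw [abs_of_nonneg (hd l).1]
      refine (hd l).2.le.trans ?_
      exact pow_le_pow_left₀ (by norm_num) (by norm_num) _
    have h4 : |j * d l| ≤ j.natAbs * 4 ^ (l + 1) := by
      rw [abs_mul, ← Int.natCast_natAbs j]
      exact mul_le_mul_of_nonneg_left h3 (by positivity)
    calc |a l + j * d l| ≤ |a l| + |j * d l| := abs_add_le _ _
      _ ≤ 4 ^ (l + 1) + j.natAbs * 4 ^ (l + 1) := add_le_add h2 h4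
      _ = ((j.natAbs + 1 : ℕ) : ℤ) * 4 ^ (l + 1) := by
        push_cast
        ring
  · refine ha l j ?_
    rw [← Int.natCast_natAbs j]
    exact_mod_cast hl j.natAbs l hl2
  · have h2 := hs.hasSum.add (hsum.mul_left (j : ℝ))
    convert h2 using 1
    funext l
    push_cast
    ring

/-- all common differences -/
theorem coord_all (hDig : S_DIG) {K : ℕ → ℕ} {Δ : ℕ → Finset ℤ} {l₁ : ℕ → ℕ}
    (hl : ∀ N l : ℕ, l₁ N ≤ l → N ≤ K l)
    (hC : ∀ l, Ctr (K l) (2 ^ (l + 1)) (Δ l)) (hΔ : ∀ l, ∀ x ∈ Δ l, 0 ≤ x ∧ x ≤ 4 ^ (l + 1))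
    (x : ℝ) (h1 : |x| < 1) : ∃ a : ℝ, ∀ j : ℤ,
      a + j * x ∈ X (j.natAbs + 1) (l₁ j.natAbs) Δ := by
  obtain ⟨a, ha⟩ := coord hDig hl hC hΔ |x| (abs_nonneg _) h1
  rcases abs_cases x with ⟨h2, -⟩ | ⟨h2, -⟩
  · rw [h2] at ha
    exact ⟨a, ha⟩
  · refine ⟨a, fun j => ?_⟩
    have h3 := ha (-j)
    rw [h2, Int.natAbs_neg] at h3
    convert h3 using 1
    push_cast
    ring

theorem packingDim_le {n : ℕ} {B : Set (E n)} (S : ℕ → Set (E n))
    (hS : ∀ i, Bornology.IsBounded (S i)) (hB : B ⊆ ⋃ i, S i) {u : EReal}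
    (hu : ∀ i, upperMinkowski (S i) ≤ u) : packingDim B ≤ u := by
  unfold packingDim
  exact iInf_le_of_le S (iInf_le_of_le hS (iInf_le_of_le hB (iSup_le hu)))

theorem packingDim_mono {n : ℕ} {A B : Set (E n)} (h : A ⊆ B) : packingDim A ≤ packingDim B := by
  unfold packingDim
  refine le_iInf fun S => le_iInf fun hS => le_iInf fun hB => ?_
  exact iInf_le_of_le S (iInf_le_of_le hS (iInf_le_of_le (h.trans hB) le_rfl))

/-- **Existence.** -/
theorem exists_small (hB : S_BIG) (hCt : S_CTR) (hSeq : S_SEQ) (hDig : S_DIG) (hCel : S_CEL)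
    (hDil : S_DIL) (hClo : S_CLO) {f : ℕ → ℝ} {L : ℝ} (h : Exps f L) (n : ℕ) :
    ∃ B : Set (E n), IsSigmaCompact B ∧
      (∀ r : E n, ∃ a : E n, ∀ j : ℤ, a + (j : ℝ) • r ∈ B) ∧
      packingDim B ≤ ((n * L : ℝ) : EReal) := by
  have hL : 0 ≤ L := le_trans (by norm_num) h.low
  obtain ⟨K, Δ, hK, hC, hΔ, hcard⟩ := hSeq L hL (big_ctr hB hCt h)
  have hl : ∀ N : ℕ, ∃ l₁ : ℕ, ∀ l, l₁ ≤ l → N ≤ K l := fun N =>
    eventually_atTop.mp (hK.eventually_ge_atTop N)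
  choose l₁ hl₁ using hl
  set S : ℕ → Set (E n) := fun i =>
    (fun r : E n => ((i.unpair.1 + 1 : ℕ) : ℝ) • r) '' cubeOf n (X (i.unpair.2 + 1) (l₁ i.unpair.2) Δ)
    with hS
  have hSb : ∀ i, Bornology.IsBounded (S i) := by
    intro i
    have h1 := bounded_cube hCel hL hcard n (i.unpair.2 + 1) (l₁ i.unpair.2)
    exact (LipschitzWith.isBounded_image (f := fun r : E n => ((i.unpair.1 + 1 : ℕ) : ℝ) • r)
      (lipschitzWith_smul _) h1)
  refine ⟨⋃ i, closure (S i), ?_, ?_, ?_⟩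
  · refine isSigmaCompact_iUnion_of_isCompact _ fun i => ?_
    exact (hSb i).isCompact_closure
  · intro r
    obtain ⟨m, hm⟩ : ∃ m : ℕ, ∀ i, |r i| < m + 1 := by
      obtain ⟨m, hm⟩ := exists_nat_ge (∑ i, |r i|)
      refine ⟨m, fun i => ?_⟩
      have := Finset.single_le_sum (f := fun i => |r i|) (fun i _ => abs_nonneg _) (Finset.mem_univ i)
      linarith
    have hm0 : (0 : ℝ) < m + 1 := by positivity
    have h2 : ∀ i, ∃ a : ℝ, ∀ j : ℤ, a + j * (r i / (m + 1)) ∈ X (j.natAbs + 1) (l₁ j.natAbs) Δ := by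
      intro i
      refine coord_all hDig hl₁ hC hΔ _ ?_
      rw [abs_div, abs_of_pos hm0, div_lt_one hm0]
      exact hm i
    choose a ha using h2
    refine ⟨WithLp.toLp 2 fun i => (m + 1) * a i, fun j => ?_⟩
    refine Set.mem_iUnion.mpr ⟨Nat.pair m j.natAbs, subset_closure ?_⟩
    simp only [hS, Nat.unpair_pair]
    refine ⟨WithLp.toLp 2 fun i => a i + j * (r i / (m + 1)), fun i => ?_, ?_⟩
    · simpa using ha i j
    · ext i
      simp only [PiLp.smul_apply, PiLp.add_apply, smul_eq_mul]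
      push_cast
      field_simp
  · refine packingDim_le (fun i => closure (S i)) (fun i => (hSb i).closure) le_rfl fun i => ?_
    refine (hClo n (S i) (hSb i)).trans ?_
    exact upper_dil hCel hDil hL hcard n _ _ (i.unpair.1 + 1) (by omega)

theorem le_packingDim {n : ℕ} {B : Set (E n)} {u : EReal}
    (h : ∀ S : ℕ → Set (E n), (∀ i, Bornology.IsBounded (S i)) → B ⊆ ⋃ i, S i →
      u ≤ ⨆ i, upperMinkowski (S i)) : u ≤ packingDim B := by
  unfold packingDim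
  exact le_iInf fun S => le_iInf fun hS => le_iInf fun hB => h S hS hB

/-- `B` contains arbitrarily long progressions whose common differences are rational multiples of
`r` -/
def LongIn {n : ℕ} (B : Set (E n)) (r : E n) : Prop :=
  ∀ k : ℕ, ∃ (a : E n) (q : ℚ), q ≠ 0 ∧ ∀ j : ℕ, j < k → a + ((j : ℝ) * (q : ℝ)) • r ∈ B

/-- **Lower bound.** -/
theorem lower (hLow : S_LOW) {f : ℕ → ℝ} {L : ℝ} (h : Exps f L) {n : ℕ} (R B : Set (E n))
    (hR : volume R ≠ 0) (hB : ∀ r ∈ R, LongIn B r) : ((n * L : ℝ) : EReal) ≤ packingDim B := by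
  have h1 : ∀ᶠ k in atTop, ((n * f k : ℝ) : EReal) ≤ packingDim B := by
    filter_upwards [eventually_ge_atTop 2] with k hk
    obtain ⟨w, hw0, hw1, hw⟩ := h.cover k hk
    exact hLow n k (f k) w (by omega) (by linarith [h.half k hk]) hw0 hw1 (hw n) R B hR
      fun r hr => hB r hr k
  have h2 : Tendsto (fun k => ((n * f k : ℝ) : EReal)) atTop (𝓝 ((n * L : ℝ) : EReal)) :=
    (continuous_coe_real_ereal.tendsto _).comp (h.lim.const_mul (n : ℝ))
  exact le_of_tendsto h2 h1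

/-- times of positive outer measure -/
theorem lower_measure (hLow : S_LOW) (hLeb : S_LEB) (hClo : S_CLO) {f : ℕ → ℝ} {L : ℝ}
    (h : Exps f L) {n : ℕ} (R B : Set (E n)) (hR : volume R ≠ 0)
    (hB : ∀ r ∈ R, ∃ a : E n, volume {t : ℝ | a + t • r ∈ B} ≠ 0) :
    ((n * L : ℝ) : EReal) ≤ packingDim B := by
  refine le_packingDim fun S hS hBS => ?_
  have h1 : ((n * L : ℝ) : EReal) ≤ packingDim (⋃ i, closure (S i)) := by
    refine lower hLow h R _ hR fun r hr k => ?_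
    obtain ⟨a, ha⟩ := hB r hr
    -- one of the closed sets of times has positive measure
    obtain ⟨i, hi⟩ : ∃ i, volume {t : ℝ | a + t • r ∈ closure (S i)} ≠ 0 := by
      by_contra hcon
      push Not at hcon
      apply ha
      refine measure_mono_null ?_ (measure_iUnion_null hcon)
      intro t ht
      obtain ⟨i, hi⟩ := Set.mem_iUnion.mp (hBS ht)
      exact Set.mem_iUnion.mpr ⟨i, subset_closure hi⟩
    have hc : IsClosed {t : ℝ | a + t • r ∈ closure (S i)} :=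
      isClosed_closure.preimage (by fun_prop : Continuous fun t : ℝ => a + t • r)
    obtain ⟨t, q, hq, ht⟩ := hLeb _ hc hi k
    have hq' : (0 : ℝ) < q := by exact_mod_cast hq
    refine ⟨a + t • r, 1 / (q : ℚ), by positivity, fun j hj => Set.mem_iUnion.mpr ⟨i, ?_⟩⟩
    have h2 := ht j hj
    have e : a + (t + (j : ℝ) * (1 / (q : ℝ))) • r =
        a + t • r + ((j : ℝ) * ((1 / (q : ℚ) : ℚ) : ℝ)) • r := by
      push_cast
      rw [add_smul, add_assoc]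
    rw [← e]
    exact h2
  refine h1.trans (packingDim_le (fun i => closure (S i)) (fun i => (hS i).closure) le_rfl fun i => ?_)
  exact (hClo n (S i) (hS i)).trans (le_iSup (fun i => upperMinkowski (S i)) i)

/-- positive upper Banach density -/
def PosBanach (T : Set ℤ) : Prop := ∃ η : ℝ, 0 < η ∧ ∀ N₀ : ℕ, ∃ N : ℕ, N₀ ≤ N ∧ ∃ t : ℤ,
    η * N ≤ ((T ∩ Set.Ico t (t + N)).ncard : ℝ)

theorem lower_banach (hLow : S_LOW) (hSz : S_SZE) {f : ℕ → ℝ} {L : ℝ}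
    (h : Exps f L) {n : ℕ} (R B : Set (E n)) (hR : volume R ≠ 0)
    (hB : ∀ r ∈ R, ∃ a : E n, PosBanach {j : ℤ | a + (j : ℝ) • r ∈ B}) :
    ((n * L : ℝ) : EReal) ≤ packingDim B := by
  refine lower hLow h R B hR fun r hr k => ?_
  obtain ⟨a, ha⟩ := hB r hr
  obtain ⟨t, d, hd, ht⟩ := hSz _ ha k
  refine ⟨a + (t : ℝ) • r, (d : ℚ), by exact_mod_cast hd.ne', fun j hj => ?_⟩
  have h2 := ht j hj
  have e : a + (t : ℝ) • r + ((j : ℝ) * (((d : ℤ) : ℚ) : ℝ)) • r =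
      a + ((t + j * d : ℤ) : ℝ) • r := by
    push_cast
    rw [add_smul, add_assoc]
  rw [e]
  exact h2

end Pool.Agent.H89IP
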