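import Pool.Agent.H89IP.Stm

/-!
Project IP, piece LEB: progressions with difference `1 / q` in closed sets of positive measure.
-/

set_option autoImplicit false

open Finset Filter Topology MeasureTheory

namespace Pool.Agent.H89IP

theorem t_LEB : S_LEB := by
  intro T hT hT0 k
  obtain ⟨F, hFT, hF, hF0⟩ := hT.measurableSet.exists_lt_isCompact (pos_iff_ne_zero.2 hT0)
  have hFtop : volume F ≠ ⊤ := hF.measure_lt_top.ne
  have hlt : volume F < volume F + volume F / ((k : ENNReal) + 1) := by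
    refine ENNReal.lt_add_right hFtop ?_
    exact (ENNReal.div_pos hF0.ne' (by finiteness)).ne'
  obtain ⟨U, hFU, hU, hUlt⟩ := Set.exists_isOpen_lt_of_lt F _ hlt
  obtain ⟨δ, hδ, hδU⟩ := hF.exists_thickening_subset_open hU hFU
  obtain ⟨q', hq'⟩ := exists_nat_gt ((k : ℝ) / δ)
  have hq0 : (0 : ℝ) < q' := lt_of_le_of_lt (by positivity) hq'
  refine (fun hgoal : ∃ t : ℝ, ∀ j : ℕ, j < k → t + (j : ℝ) * (1 / (q' : ℝ)) ∈ F => ?_) ?_
  · obtain ⟨t, ht⟩ := hgoal
    exact ⟨t, q', by exact_mod_cast hq0, fun j hj => hFT (ht j hj)⟩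
  by_contra hcon
  push Not at hcon
  let A : ℕ → Set ℝ := fun j => (fun t => t + (j : ℝ) * (1 / (q' : ℝ))) ⁻¹' F
  have hAm : ∀ j, MeasurableSet (A j) := fun j =>
    (measurable_id.add_const _) hF.measurableSet
  have hAv : ∀ j, volume (A j) = volume F := fun j => measure_preimage_add_right _ _ _
  have hAU : ∀ j, j < k → A j ⊆ U := by
    intro j hj t ht
    apply hδU
    rw [Metric.mem_thickening_iff]
    refine ⟨_, ht, ?_⟩
    rw [Real.dist_eq]
    have h1 : (j : ℝ) < k := by exact_mod_cast hj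
    have h2 : (k : ℝ) < q' * δ := by rwa [div_lt_iff₀ hδ] at hq'
    have h3 : |t - (t + (j : ℝ) * (1 / (q' : ℝ)))| = (j : ℝ) / q' := by
      rw [abs_sub_comm, show t + (j : ℝ) * (1 / (q' : ℝ)) - t = (j : ℝ) / q' by ring]
      exact abs_of_nonneg (by positivity)
    rw [h3, div_lt_iff₀ hq0]
    linarith
  have hcov : U ⊆ ⋃ j ∈ Finset.range k, (U \ A j) := by
    intro t ht
    obtain ⟨j, hj, hjn⟩ := hcon t
    simp only [Set.mem_iUnion, Finset.mem_range]
    exact ⟨j, hj, ht, hjn⟩
  have h1 : volume U ≤ ∑ j ∈ Finset.range k, volume (U \ A j) :=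
    (measure_mono hcov).trans (measure_biUnion_finset_le _ _)
  have h2 : ∀ j ∈ Finset.range k, volume (U \ A j) ≤ volume F / ((k : ENNReal) + 1) := by
    intro j hj
    rw [measure_sdiff (hAU j (Finset.mem_range.1 hj)) (hAm j).nullMeasurableSet
      (by rw [hAv]; exact hFtop), hAv]
    exact tsub_le_iff_left.2 hUlt.le
  have h3 : volume U ≤ (k : ENNReal) * (volume F / ((k : ENNReal) + 1)) := by
    refine h1.trans ((Finset.sum_le_sum h2).trans ?_)
    simp
  have h4 : volume F ≤ (k : ENNReal) * (volume F / ((k : ENNReal) + 1)) :=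
    (measure_mono hFU).trans h3
  have h5 : (k : ENNReal) * (volume F / ((k : ENNReal) + 1)) < volume F := by
    rw [← mul_div_assoc, ENNReal.div_lt_iff (Or.inl (by simp)) (Or.inl (by finiteness)), mul_comm]
    refine ENNReal.mul_lt_mul_right hF0.ne' hFtop ?_
    exact ENNReal.lt_add_right (by finiteness) (by simp)
  exact absurd (h4.trans_lt h5) (lt_irrefl _)

end Pool.Agent.H89IP
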