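import Pool.Agent.H89IP.Stm

/-!
# Project IP, piece LOW: the lower bound for the packing dimension
-/

set_option autoImplicit false

open Finset Filter Topology MeasureTheory

namespace Pool.Agent.H89IP

open Pool.Agent.Results.MP_4b405e_nt.ExactExponent (E coverNum upperMinkowski)

theorem low_ev59 {n : ℕ} (S : Set (E n)) (u : ℝ) (h : upperMinkowski S < (u : EReal)) :
    ∀ᶠ δ : ℝ in 𝓝[>] 0, (coverNum S δ : ℝ) ≤ (1 / δ) ^ u := by
  unfold upperMinkowski at h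
  have h1 := Filter.eventually_lt_of_limsup_lt h
  have h2 : ∀ᶠ δ : ℝ in 𝓝[>] 0, δ < 1 := by
    apply eventually_nhdsWithin_of_eventually_nhds
    exact eventually_lt_nhds one_pos
  have h3 : ∀ᶠ δ : ℝ in 𝓝[>] 0, 0 < δ := eventually_mem_nhdsWithin
  filter_upwards [h1, h2, h3] with δ hδ hδ1 hδ0
  have h4 : Real.log (coverNum S δ) / Real.log (1 / δ) < u := EReal.coe_lt_coe_iff.1 hδ
  have h5 : 1 < 1 / δ := by rw [lt_div_iff₀ hδ0]; linarith
  have h6 : 0 < Real.log (1 / δ) := Real.log_pos h5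
  rw [div_lt_iff₀ h6] at h4
  rcases Nat.eq_zero_or_pos (coverNum S δ) with h7 | h7
  · rw [h7]
    simp only [Nat.cast_zero]
    positivity
  · have h8 : (0 : ℝ) < (coverNum S δ : ℝ) := by exact_mod_cast h7
    rw [Real.rpow_def_of_pos (by positivity), ← Real.log_le_iff_le_exp h8]
    linarith [mul_comm u (Real.log (1 / δ))]

theorem t_LOW (hOUT : S_OUT) (hDIL : S_DIL) : S_LOW := by
  intro n k f w hk hf hw hw1 ⟨C, hC, H⟩ R B hR hRB
  unfold packingDim
  refine le_iInf fun S => le_iInf fun hS => le_iInf fun hBS => ?_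
  by_contra hlt
  rw [not_le] at hlt
  obtain ⟨u, hu1, hu2⟩ := EReal.lt_iff_exists_real_btwn.1 hlt
  have hu2' : u < n * f := EReal.coe_lt_coe_iff.1 hu2
  let T : ℚ × (Fin k → ℕ) × ℕ → Set (E n) := fun p => {r | p.1 ≠ 0 ∧ ‖r‖ ≤ p.2.2 ∧
    ∃ a : E n, ∀ j : Fin k, a + (((j : ℕ) : ℝ) * (p.1 : ℝ)) • r ∈ S (p.2.1 j)}
  have hT : R ⊆ ⋃ p, T p := by
    intro r hr
    obtain ⟨a, q, hq, ha⟩ := hRB r hr
    have h1 : ∀ j : Fin k, ∃ i, a + (((j : ℕ) : ℝ) * (q : ℝ)) • r ∈ S i :=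
      fun j => Set.mem_iUnion.1 (hBS (ha j j.2))
    choose c hc using h1
    obtain ⟨m, hm⟩ := exists_nat_ge ‖r‖
    exact Set.mem_iUnion.2 ⟨(q, c, m), hq, hm, a, hc⟩
  have hex : ∃ p, volume (T p) ≠ 0 := by
    by_contra hcon
    push Not at hcon
    exact hR (measure_mono_null hT (measure_iUnion_null hcon))
  obtain ⟨⟨q, c, m⟩, hp⟩ := hex
  have hne : (T (q, c, m)).Nonempty := Set.nonempty_iff_ne_empty.2 (fun h => hp (by
    rw [h]; exact measure_empty))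
  obtain ⟨r0, hr0⟩ := hne
  have hq : q ≠ 0 := hr0.1
  have hqR : (q : ℝ) ≠ 0 := by exact_mod_cast hq
  have hqa : 0 < |(q : ℝ)| := abs_pos.2 hqR
  have hbd : Bornology.IsBounded (T (q, c, m)) :=
    (Metric.isBounded_closedBall (x := (0 : E n)) (r := (m : ℝ))).subset (fun r hr => by
      rw [mem_closedBall_zero_iff]
      exact hr.2.1)
  obtain ⟨c', hc', hout⟩ := hOUT n _ hbd hp
  have hkey := H ((fun r => (q : ℝ) • r) '' T (q, c, m)) (fun j => S (c j)) (fun j => hS _) (by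
    rintro _ ⟨r, hr, rfl⟩
    obtain ⟨a, ha⟩ := hr.2.2
    refine ⟨a, fun j => ?_⟩
    have := ha j
    rwa [mul_smul] at this)
  have hev : ∀ᶠ δ : ℝ in 𝓝[>] 0, ∀ j : Fin k, (coverNum (S (c j)) δ : ℝ) ≤ (1 / δ) ^ u :=
    eventually_all.2 fun j => low_ev59 _ u (lt_of_le_of_lt (le_iSup (fun i => upperMinkowski (S i))
      (c j)) hu1)
  have h3 : ∀ᶠ δ : ℝ in 𝓝[>] 0, 0 < δ := eventually_mem_nhdsWithin
  have h4 : ∀ᶠ δ : ℝ in 𝓝[>] 0, δ < |(q : ℝ)| := by
    apply eventually_nhdsWithin_of_eventually_nhds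
    exact eventually_lt_nhds hqa
  set A : ℝ := (c' * |(q : ℝ)| ^ n) ^ f with hA
  have hA0 : 0 < A := by positivity
  have h5 : ∀ᶠ δ : ℝ in 𝓝[>] 0, (1 / δ) ^ (n * f - u) ≤ C / A := by
    filter_upwards [hev, h3, h4] with δ hδ hδ0 hδq
    have e1 := hkey δ hδ0
    rw [hDIL n _ (q : ℝ) hbd hqR δ hδ0] at e1
    have e2 := hout (δ / |(q : ℝ)|) (by positivity) (by
      rw [div_le_one hqa]; exact hδq.le)
    have hd : 0 < 1 / δ := by positivity
    have e3 : c' * (1 / (δ / |(q : ℝ)|)) ^ n = (c' * |(q : ℝ)| ^ n) * (1 / δ) ^ n := by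
      rw [one_div_div, div_eq_mul_one_div, mul_pow]
      ring
    rw [e3] at e2
    have e4 : A * (1 / δ) ^ (n * f) ≤ (coverNum (T (q, c, m)) (δ / |(q : ℝ)|) : ℝ) ^ f := by
      calc A * (1 / δ) ^ (n * f) = ((c' * |(q : ℝ)| ^ n) * (1 / δ) ^ n) ^ f := by
            rw [Real.mul_rpow (by positivity) (by positivity), Real.rpow_mul hd.le,
              Real.rpow_natCast]
        _ ≤ _ := Real.rpow_le_rpow (by positivity) e2 hf
    have e5 : (∏ j, (coverNum (S (c j)) δ : ℝ) ^ w j) ≤ (1 / δ) ^ u := by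
      calc (∏ j, (coverNum (S (c j)) δ : ℝ) ^ w j) ≤ ∏ j, ((1 / δ) ^ u) ^ w j :=
            Finset.prod_le_prod (fun j _ => by positivity)
              (fun j _ => Real.rpow_le_rpow (by positivity) (hδ j) (hw j))
        _ = ∏ j, (1 / δ) ^ (u * w j) :=
            Finset.prod_congr rfl fun j _ => by rw [Real.rpow_mul hd.le]
        _ = (1 / δ) ^ (∑ j, u * w j) := (Real.rpow_sum_of_pos hd _ _).symm
        _ = (1 / δ) ^ u := by rw [← Finset.mul_sum, hw1, mul_one]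
    have e6 : A * (1 / δ) ^ (n * f) ≤ C * (1 / δ) ^ u :=
      e4.trans (e1.trans (mul_le_mul_of_nonneg_left e5 hC.le))
    rw [Real.rpow_sub hd, le_div_iff₀ hA0, div_mul_eq_mul_div, div_le_iff₀ (by positivity)]
    linarith [mul_comm A ((1 / δ) ^ (n * f))]
  have h6 : Tendsto (fun δ : ℝ => (1 / δ) ^ (n * f - u)) (𝓝[>] 0) atTop := by
    have h7 : Tendsto (fun δ : ℝ => 1 / δ) (𝓝[>] 0) atTop := by
      simp only [one_div]
      exact tendsto_inv_nhdsGT_zero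
    exact (tendsto_rpow_atTop (by linarith)).comp h7
  obtain ⟨δ, h8, h9⟩ := (h5.and (h6.eventually_gt_atTop (C / A))).exists
  exact absurd h8 (not_le.2 h9)

end Pool.Agent.H89IP

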