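import Pool.Agent.H89IP.LOW
import Pool.Agent.H89IP.Final

/-!
# Project IP: arbitrary sets of common differences
-/

set_option autoImplicit false

open Finset Filter Topology MeasureTheory

namespace Pool.Agent.H89IP

open Pool.Agent.Results.MP_4b405e_nt.ExactExponent (E coverNum upperMinkowski infDim HasProgressions)

/-- an eventual bound for the covering numbers bounds the upper Minkowski dimension -/
theorem upper_le_of_ev {n : ℕ} {T : Set (E n)} {C q v : ℝ} (hC : 0 < C) (hq : 0 < q) (hv : 0 ≤ v)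
    (h : ∀ᶠ δ : ℝ in 𝓝[>] 0, (coverNum T (δ / q) : ℝ) ≤ C * (1 / δ) ^ v) :
    upperMinkowski T ≤ (v : EReal) := by
  refine le_of_forall_gt fun x hx => ?_
  obtain ⟨y, hy, hyx⟩ := EReal.lt_iff_exists_real_btwn.mp hx
  refine lt_of_le_of_lt ?_ hyx
  have hy' : v < y := by exact_mod_cast hy
  unfold upperMinkowski
  refine limsup_le_of_le (by isBoundedDefault) ?_
  -- change of variable
  have h1 : ∀ᶠ δ : ℝ in 𝓝[>] 0, (coverNum T δ : ℝ) ≤ C * (1 / (δ * q)) ^ v := by
    have ht : Tendsto (fun δ : ℝ => δ * q) (𝓝[>] 0) (𝓝[>] 0) := by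
      refine tendsto_nhdsWithin_iff.mpr ⟨?_, ?_⟩
      · have : Tendsto (fun δ : ℝ => δ * q) (𝓝 0) (𝓝 (0 * q)) := tendsto_id.mul_const q
        rw [zero_mul] at this
        exact this.mono_left nhdsWithin_le_nhds
      · filter_upwards [eventually_mem_nhdsWithin] with δ hδ
        exact mul_pos hδ hq
    filter_upwards [ht.eventually h] with δ hδ
    rwa [mul_div_cancel_right₀ _ hq.ne'] at hδ
  have h2 : Tendsto (fun δ : ℝ => Real.log (1 / δ)) (𝓝[>] 0) atTop := by
    have h7 : Tendsto (fun δ : ℝ => 1 / δ) (𝓝[>] 0) atTop := by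
      simp only [one_div]
      exact tendsto_inv_nhdsGT_zero
    exact Real.tendsto_log_atTop.comp h7
  filter_upwards [h1, eventually_mem_nhdsWithin,
    h2.eventually_ge_atTop ((|Real.log C| + |v * Real.log q|) / (y - v)),
    h2.eventually_gt_atTop 0] with δ h3 h4 h5 h6
  have hδ : (0 : ℝ) < δ := h4
  rw [EReal.coe_le_coe_iff, div_le_iff₀ h6]
  rw [div_le_iff₀ (by linarith)] at h5
  rcases Nat.eq_zero_or_pos (coverNum T δ) with h7 | h7
  · rw [h7, Nat.cast_zero, Real.log_zero]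
    have : 0 ≤ y := by linarith
    positivity
  · have h8 : (0 : ℝ) < 1 / (δ * q) := by positivity
    have h9 := Real.log_le_log (by exact_mod_cast h7) h3
    rw [Real.log_mul hC.ne' (Real.rpow_pos_of_pos h8 v).ne', Real.log_rpow h8] at h9
    have e : Real.log (1 / (δ * q)) = Real.log (1 / δ) - Real.log q := by
      rw [one_div, one_div, Real.log_inv, Real.log_inv, Real.log_mul hδ.ne' hq.ne']
      ring
    rw [e] at h9
    have h10 := le_abs_self (Real.log C)
    have h11 := neg_abs_le (v * Real.log q)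
    nlinarith

/-- **Arbitrary sets of common differences**, `k` terms. -/
theorem low_gen (hDIL : S_DIL) {n k : ℕ} {f : ℝ} {w : Fin k → ℝ} (hf : 0 < f)
    (hw : ∀ j, 0 ≤ w j) (hw1 : ∑ j, w j = 1)
    (H : ∃ C : ℝ, 0 < C ∧ ∀ (R : Set (E n)) (B : Fin k → Set (E n)),
      (∀ j, Bornology.IsBounded (B j)) →
      (∀ r ∈ R, ∃ a : E n, ∀ j : Fin k, a + ((j : ℕ) : ℝ) • r ∈ B j) →
      ∀ δ : ℝ, 0 < δ → (coverNum R δ : ℝ) ^ f ≤ C * ∏ j, (coverNum (B j) δ : ℝ) ^ w j)
    (R B : Set (E n))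
    (hRB : ∀ r ∈ R, ∃ (a : E n) (q : ℚ), q ≠ 0 ∧ ∀ j : ℕ, j < k →
      a + ((j : ℝ) * (q : ℝ)) • r ∈ B) (s : ℝ) (hs : (s : EReal) ≤ packingDim R) :
    ((f * s : ℝ) : EReal) ≤ packingDim B := by
  obtain ⟨C, hC, H⟩ := H
  refine le_packingDim fun S hS hBS => ?_
  by_contra hlt
  rw [not_le] at hlt
  obtain ⟨u', hu1', hu2'⟩ := EReal.lt_iff_exists_real_btwn.1 hlt
  have hu3' : u' < f * s := EReal.coe_lt_coe_iff.1 hu2'
  -- dimensions are nonnegative
  have hnn : ∀ T : Set (E n), (0 : EReal) ≤ upperMinkowski T := by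
    intro T
    unfold upperMinkowski
    refine le_limsup_of_frequently_le ?_ (by isBoundedDefault)
    refine Eventually.frequently ?_
    have h2 : ∀ᶠ δ : ℝ in 𝓝[>] 0, δ < 1 := by
      apply eventually_nhdsWithin_of_eventually_nhds
      exact eventually_lt_nhds one_pos
    filter_upwards [h2, eventually_mem_nhdsWithin] with δ h3 h4
    have hδ : (0 : ℝ) < δ := h4
    have h5 : 0 ≤ Real.log (1 / δ) := Real.log_nonneg (by
      rw [le_div_iff₀ hδ]
      linarith)
    have h6 : 0 ≤ Real.log (coverNum T δ : ℝ) := Real.log_natCast_nonneg _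
    exact_mod_cast div_nonneg h6 h5
  have hu0 : 0 < u' := by
    have h1 : (0 : EReal) < (u' : EReal) := (hnn (S 0)).trans_lt
      ((le_iSup (fun i => upperMinkowski (S i)) 0).trans_lt hu1')
    exact_mod_cast h1
  let T : ℚ × (Fin k → ℕ) × ℕ → Set (E n) := fun p => {r | p.1 ≠ 0 ∧ ‖r‖ ≤ p.2.2 ∧
    ∃ a : E n, ∀ j : Fin k, a + (((j : ℕ) : ℝ) * (p.1 : ℝ)) • r ∈ S (p.2.1 j)}
  have hT : R ⊆ ⋃ p, T p := by
    intro r hr
    obtain ⟨a, q, hq, ha⟩ := hRB r hr
    have h1 : ∀ j : Fin k, ∃ i, a + (((j : ℕ) : ℝ) * (q : ℝ)) • r ∈ S i :=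
      fun j => Set.mem_iUnion.1 (hBS (ha j j.2))
    choose c hc using h1
    obtain ⟨m, hm⟩ := exists_nat_ge ‖r‖
    exact Set.mem_iUnion.2 ⟨(q, c, m), hq, hm, a, hc⟩
  have hbd : ∀ p, Bornology.IsBounded (T p) := fun p =>
    (Metric.isBounded_closedBall (x := (0 : E n)) (r := (p.2.2 : ℝ))).subset (fun r hr => by
      rw [mem_closedBall_zero_iff]
      exact hr.2.1)
  have hup : ∀ p, upperMinkowski (T p) ≤ ((u' / f : ℝ) : EReal) := by
    rintro ⟨q, c, m⟩
    by_cases hq : q = 0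
    · have h1 : T (q, c, m) = ∅ := by
        rw [Set.eq_empty_iff_forall_notMem]
        rintro r ⟨h2, -⟩
        exact h2 hq
      rw [h1]
      have h2 : upperMinkowski (∅ : Set (E n)) ≤ ((0 : ℝ) : EReal) := by
        refine upper_le_of_ev (C := 1) (q := 1) one_pos one_pos le_rfl ?_
        filter_upwards with δ
        have h3 : coverNum (∅ : Set (E n)) (δ / 1) = 0 := by
          unfold Pool.Agent.Results.MP_4b405e_nt.ExactExponent.coverNum
          refine Nat.sInf_eq_zero.mpr (Or.inl ?_)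
          exact ⟨fun i => i.elim0, fun i => i.elim0, Set.empty_subset _⟩
        rw [h3]
        simp
      refine h2.trans ?_
      exact_mod_cast (by positivity : (0 : ℝ) ≤ u' / f)
    have hqR : (q : ℝ) ≠ 0 := by exact_mod_cast hq
    have hqa : 0 < |(q : ℝ)| := abs_pos.2 hqR
    have hkey := H ((fun r => (q : ℝ) • r) '' T (q, c, m)) (fun j => S (c j)) (fun j => hS _) (by
      rintro _ ⟨r, hr, rfl⟩
      obtain ⟨a, ha⟩ := hr.2.2
      refine ⟨a, fun j => ?_⟩
      have := ha j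
      rwa [mul_smul] at this)
    have hev : ∀ᶠ δ : ℝ in 𝓝[>] 0, ∀ j : Fin k, (coverNum (S (c j)) δ : ℝ) ≤ (1 / δ) ^ u' :=
      eventually_all.2 fun j => low_ev59 _ u' (lt_of_le_of_lt (le_iSup (fun i => upperMinkowski (S i))
        (c j)) hu1')
    refine upper_le_of_ev (C := C ^ (1 / f)) (q := |(q : ℝ)|) (by positivity) hqa (by positivity) ?_
    filter_upwards [hev, eventually_mem_nhdsWithin] with δ hδ hδ0'
    have hδ0 : (0 : ℝ) < δ := hδ0'
    have e1 := hkey δ hδ0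
    rw [hDIL n _ (q : ℝ) (hbd _) hqR δ hδ0] at e1
    have hd : 0 < 1 / δ := by positivity
    have e5 : (∏ j, (coverNum (S (c j)) δ : ℝ) ^ w j) ≤ (1 / δ) ^ u' := by
      calc (∏ j, (coverNum (S (c j)) δ : ℝ) ^ w j) ≤ ∏ j, ((1 / δ) ^ u') ^ w j :=
            Finset.prod_le_prod (fun j _ => by positivity)
              (fun j _ => Real.rpow_le_rpow (by positivity) (hδ j) (hw j))
        _ = ∏ j, (1 / δ) ^ (u' * w j) :=
            Finset.prod_congr rfl fun j _ => by rw [Real.rpow_mul hd.le]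
        _ = (1 / δ) ^ (∑ j, u' * w j) := (Real.rpow_sum_of_pos hd _ _).symm
        _ = (1 / δ) ^ u' := by rw [← Finset.mul_sum, hw1, mul_one]
    have e6 : (coverNum (T (q, c, m)) (δ / |(q : ℝ)|) : ℝ) ^ f ≤ C * (1 / δ) ^ u' :=
      e1.trans (mul_le_mul_of_nonneg_left e5 hC.le)
    have e7 := Real.rpow_le_rpow (by positivity) e6 (by positivity : 0 ≤ 1 / f)
    rw [← Real.rpow_mul (Nat.cast_nonneg _), mul_one_div_cancel hf.ne', Real.rpow_one,
      Real.mul_rpow hC.le (by positivity), ← Real.rpow_mul hd.le] at e7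
    refine e7.trans (le_of_eq ?_)
    rw [mul_one_div]
  obtain ⟨e, he⟩ := exists_surjective_nat (ℚ × (Fin k → ℕ) × ℕ)
  have hfin : packingDim R ≤ ((u' / f : ℝ) : EReal) := by
    refine packingDim_le (fun i => T (e i)) (fun i => hbd _) (fun r hr => ?_) fun i => hup _
    obtain ⟨p, hp⟩ := Set.mem_iUnion.1 (hT hr)
    obtain ⟨i, rfl⟩ := he p
    exact Set.mem_iUnion.2 ⟨i, hp⟩
  have h2 := hs.trans hfin
  rw [EReal.coe_le_coe_iff, le_div_iff₀ hf] at h2
  linarith

end Pool.Agent.H89IP
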