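import Pool.Agent.H89IP.Stm

/-!
# Project IP, part 3: times in the primes
-/

set_option autoImplicit false

open Filter Topology

namespace Pool.Agent.H89IP

/-- positive relative upper density in the primes -/
def PosPrimes (T : Set ℤ) : Prop := ∃ η : ℝ, 0 < η ∧ ∀ X₀ : ℕ, ∃ X : ℕ, X₀ ≤ X ∧
  η * (Nat.primeCounting X : ℝ) ≤ ({p : ℕ | p ≤ X ∧ p.Prime ∧ (p : ℤ) ∈ T}.ncard : ℝ)

/-- (PRI) Szemerédi's theorem in the primes, from `Pool.Agent.Helper66x.ST.rich_primes` -/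
def S_PRI : Prop := ∀ T : Set ℤ, PosPrimes T →
  ∀ k : ℕ, ∃ t d : ℤ, 0 < d ∧ ∀ j : ℕ, j < k → t + j * d ∈ T

end Pool.Agent.H89IP
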