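import Pool.Agent.H89IP.Stm

/-!
# Project IP, part 2: real digits
-/

set_option autoImplicit false

open Finset Filter Topology MeasureTheory

namespace Pool.Agent.H89IP

/-- the real numbers `∑ d_l / P_l` with digits `d_l ∈ D_l` -/
def Y (D : ℕ → Finset ℝ) : Set ℝ :=
  {x | ∃ d : ℕ → ℝ, (∀ l, d l ∈ D l) ∧ HasSum (fun l => d l / P l) x}

/-- (CEL2, 120 lines) the same as CEL for real digits; the same proof (CEL is the case of integer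
digits). -/
def S_CEL2 : Prop := ∀ (c : ℕ) (D : ℕ → Finset ℝ) (s s' : ℝ), 0 ≤ s → s < s' →
  (∀ l, ∀ z ∈ D l, |z| ≤ c * 4 ^ (l + 1)) →
  (∀ᶠ l in atTop, ((D l).card : ℝ) ≤ (2 : ℝ) ^ (((l : ℝ) + 1) * s)) →
  ∃ C : ℝ, 0 < C ∧ ∀ δ : ℝ, 0 < δ → δ ≤ 1 → ∃ F : Finset ℤ, (∀ x ∈ Y D, ⌊x / δ⌋ ∈ F) ∧
    (F.card : ℝ) ≤ C * (1 / δ) ^ s'

end Pool.Agent.H89IP
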