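import Pool.Agent.H89IP.Final
import Pool.Agent.H89IP.Stm2

/-!
# Project IP: a set of small packing dimension with a translate of `ℚ r` for every `r`
-/

set_option autoImplicit false

open Finset Filter Topology MeasureTheory

namespace Pool.Agent.H89IP

open Pool.Agent.Results.MP_4b405e_nt.ExactExponent (E coverNum upperMinkowski infDim HasProgressions)
open Pool.Agent.H88RD (Pr)
open Pool.Agent.Helper66x.AK (cubeOf)

/-- coordinates with a bound on the covering numbers -/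
theorem upper_cubeY (hCel : S_CEL2) {L : ℝ} (hL : 0 ≤ L) {c : ℕ} {D : ℕ → Finset ℝ}
    (hc : ∀ l, ∀ z ∈ D l, |z| ≤ c * 4 ^ (l + 1))
    (hD : ∀ s : ℝ, L < s → ∀ᶠ l in atTop, ((D l).card : ℝ) ≤ (2 : ℝ) ^ (((l : ℝ) + 1) * s))
    (n : ℕ) (s : ℝ) (hs : L < s) :
    ∃ C : ℝ, 0 < C ∧ ∀ δ : ℝ, 0 < δ → δ ≤ 1 →
      (coverNum (cubeOf n (Y D)) δ : ℝ) ≤ C * (1 / δ) ^ (n * s) := by
  obtain ⟨s₁, h1, h2⟩ := exists_between hs
  obtain ⟨C, hC, hF⟩ := hCel c D s₁ s (hL.trans h1.le) h2 hc (hD s₁ h1)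
  refine ⟨C ^ n * (((4 * (n + 1)) ^ n : ℕ) : ℝ), by positivity, fun δ hδ hδ1 => ?_⟩
  obtain ⟨F, hF1, hF2⟩ := hF δ hδ hδ1
  have h1 : coverNum (cubeOf n (Y D)) δ ≤
      (∏ _i : Fin n, F.card) * (4 * (n + 1)) ^ n :=
    Pool.Agent.Helper66x.AK.cover_cells hδ (B := cubeOf n (Y D)) (fun _ => F)
      fun y hy i => hF1 (y i) (hy i)
  have h2 : ((∏ _i : Fin n, F.card : ℕ) : ℝ) ≤ (C * (1 / δ) ^ s) ^ n :=
    Pool.Agent.Helper66x.AK.prod_card_le (F := fun _ => F) fun _ => hF2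
  have h3 : (C * (1 / δ) ^ s) ^ n = C ^ n * (1 / δ) ^ (n * s) := by
    rw [mul_pow, ← Real.rpow_natCast ((1 / δ) ^ s) n, ← Real.rpow_mul (by positivity),
      mul_comm s]
  rw [h3] at h2
  calc (coverNum (cubeOf n (Y D)) δ : ℝ) ≤
        (((∏ _i : Fin n, F.card) * (4 * (n + 1)) ^ n : ℕ) : ℝ) := by exact_mod_cast h1
    _ = ((∏ _i : Fin n, F.card : ℕ) : ℝ) * (((4 * (n + 1)) ^ n : ℕ) : ℝ) := by rw [Nat.cast_mul]
    _ ≤ (C ^ n * (1 / δ) ^ (n * s)) * (((4 * (n + 1)) ^ n : ℕ) : ℝ) :=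
        mul_le_mul_of_nonneg_right h2 (Nat.cast_nonneg _)
    _ = C ^ n * (((4 * (n + 1)) ^ n : ℕ) : ℝ) * (1 / δ) ^ (n * s) := by ring

theorem bounded_cubeY (hCel : S_CEL2) {L : ℝ} (hL : 0 ≤ L) {c : ℕ} {D : ℕ → Finset ℝ}
    (hc : ∀ l, ∀ z ∈ D l, |z| ≤ c * 4 ^ (l + 1))
    (hD : ∀ s : ℝ, L < s → ∀ᶠ l in atTop, ((D l).card : ℝ) ≤ (2 : ℝ) ^ (((l : ℝ) + 1) * s))
    (n : ℕ) : Bornology.IsBounded (cubeOf n (Y D)) := by
  obtain ⟨C, hC, hF⟩ := hCel c D (L + 1) (L + 2) (by linarith) (by linarith) hc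
    (hD (L + 1) (by linarith))
  obtain ⟨F, hF1, -⟩ := hF 1 one_pos le_rfl
  obtain ⟨A, hA⟩ : ∃ A : ℕ, ∀ z ∈ F, |z| ≤ (A : ℤ) := Pool.Agent.Helper66x.AK.exists_L F
  rw [Metric.isBounded_iff_subset_closedBall (0 : E n)]
  refine ⟨Real.sqrt (n * (A + 1) ^ 2), fun x hx => ?_⟩
  rw [Metric.mem_closedBall, dist_zero_right, EuclideanSpace.norm_eq]
  refine Real.sqrt_le_sqrt ?_
  calc ∑ i, ‖x i‖ ^ 2 ≤ ∑ _i : Fin n, ((A : ℝ) + 1) ^ 2 := by
        refine Finset.sum_le_sum fun i _ => ?_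
        have h1 := hA _ (hF1 (x i) (hx i))
        rw [div_one, abs_le] at h1
        have h2 : (-(A : ℝ)) ≤ ⌊x i⌋ := by exact_mod_cast h1.1
        have h3 : ((⌊x i⌋ : ℤ) : ℝ) ≤ A := by exact_mod_cast h1.2
        have h4 := Int.floor_le (x i)
        have h5 := Int.lt_floor_add_one (x i)
        have h6 : |x i| ≤ A + 1 := by
          rw [abs_le]
          constructor <;> linarith
        rw [Real.norm_eq_abs]
        exact pow_le_pow_left₀ (abs_nonneg _) h6 2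
    _ = n * ((A : ℝ) + 1) ^ 2 := by
        rw [Finset.sum_const, Finset.card_univ, Fintype.card_fin, nsmul_eq_mul]

/-- the upper Minkowski dimension of a cube -/
theorem upper_Y (hCel : S_CEL2) {L : ℝ} (hL : 0 ≤ L) {c : ℕ} {D : ℕ → Finset ℝ}
    (hc : ∀ l, ∀ z ∈ D l, |z| ≤ c * 4 ^ (l + 1))
    (hD : ∀ s : ℝ, L < s → ∀ᶠ l in atTop, ((D l).card : ℝ) ≤ (2 : ℝ) ^ (((l : ℝ) + 1) * s))
    (n : ℕ) : upperMinkowski (cubeOf n (Y D)) ≤ ((n * L : ℝ) : EReal) := by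
  have key : ∀ s : ℝ, L < s → upperMinkowski (cubeOf n (Y D)) ≤ ((n * s : ℝ) : EReal) := by
    intro s hs
    obtain ⟨C, hC, h1⟩ := upper_cubeY hCel hL hc hD n s hs
    have hs0 : 0 ≤ s := hL.trans hs.le
    exact Pool.Agent.Helper66x.AK.upper_le (C := C) hC (by positivity) h1
  refine le_of_forall_gt fun x hx => ?_
  obtain ⟨y, hy, hyx⟩ := EReal.lt_iff_exists_real_btwn.mp hx
  have hy' : n * L < y := by exact_mod_cast hy
  rcases Nat.eq_zero_or_pos n with hn | hn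
  · refine lt_of_le_of_lt (key (L + 1) (by linarith)) ?_
    subst hn
    rw [Nat.cast_zero, zero_mul] at hx ⊢
    exact hx
  · have hn' : (0 : ℝ) < n := by exact_mod_cast hn
    refine lt_of_le_of_lt (key (y / n) ?_) ?_
    · rw [lt_div_iff₀ hn']
      linarith
    · rw [mul_div_cancel₀ _ hn'.ne']
      exact hyx

/-- the terms `4 ^ (l + 1) / P l` are summable -/
theorem summable_four : Summable fun l : ℕ => (4 : ℝ) ^ (l + 1) / P l := by
  have hPpos : ∀ l, 0 < P l := fun l => by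
    unfold P
    positivity
  refine summable_of_ratio_norm_eventually_le (r := 1 / 2) (by norm_num) ?_
  filter_upwards [eventually_ge_atTop 1] with l hl1
  have e : P (l + 1) = (2 : ℝ) ^ (l + 2) * P l := by
    unfold P
    rw [← pow_add]
    congr 1
    have : (l + 1 + 1) * (l + 1 + 2) = (l + 1) * (l + 2) + (l + 2) * 2 := by ring
    rw [this, Nat.add_mul_div_right _ _ (by norm_num : 0 < 2)]
    ring
  have hP := hPpos l
  rw [Real.norm_of_nonneg (by have := hPpos (l + 1); positivity),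
    Real.norm_of_nonneg (by positivity), e]
  have h5 : (8 : ℝ) ≤ 2 ^ (l + 2) := by
    calc (8 : ℝ) = 2 ^ 3 := by norm_num
      _ ≤ 2 ^ (l + 2) := pow_le_pow_right₀ (by norm_num) (by omega)
  rw [div_le_iff₀ (by positivity)]
  have h6 : (4 : ℝ) ^ (l + 1 + 1) = 4 * 4 ^ (l + 1) := by ring
  rw [h6]
  have h7 : (0 : ℝ) < 4 ^ (l + 1) := by positivity
  have h8 : 1 / 2 * (4 ^ (l + 1) / P l) * (2 ^ (l + 2) * P l) =
      1 / 2 * 4 ^ (l + 1) * 2 ^ (l + 2) := by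
    field_simp
  rw [h8]
  nlinarith

open Classical in
/-- the digit sets for the time `t` -/
noncomputable def DT (J : ℕ → ℕ) (Δ : ℕ → Finset ℤ) (t : ℚ) (l : ℕ) : Finset ℝ :=
  if t.num.natAbs ≤ J l ∧ t.den ≤ J l then (Δ l).image fun z : ℤ => (z : ℝ) / ((J l).factorial : ℝ)
  else Finset.image₂ (fun z r : ℤ => (z : ℝ) / ((J l).factorial : ℝ) + (t : ℝ) * (r : ℝ)) (Δ l)
    (Finset.Ioo (-(2 ^ (l + 1) : ℤ)) (2 ^ (l + 1)))

theorem DT_bound {J : ℕ → ℕ} {Δ : ℕ → Finset ℤ} (hΔ : ∀ l, ∀ x ∈ Δ l, 0 ≤ x ∧ x ≤ 4 ^ (l + 1))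
    (t : ℚ) (l : ℕ) : ∀ z ∈ DT J Δ t l, |z| ≤ (⌈|(t : ℝ)|⌉₊ + 1 : ℕ) * 4 ^ (l + 1) := by
  have hf : ∀ z ∈ Δ l, |(z : ℝ) / ((J l).factorial : ℝ)| ≤ 4 ^ (l + 1) := by
    intro z hz
    have h1 : (0 : ℝ) ≤ z := by exact_mod_cast (hΔ l z hz).1
    have h2 : (z : ℝ) ≤ 4 ^ (l + 1) := by exact_mod_cast (hΔ l z hz).2
    have h3 : (1 : ℝ) ≤ ((J l).factorial : ℝ) := by exact_mod_cast (J l).factorial_pos
    rw [abs_of_nonneg (by positivity)]
    exact (div_le_self h1 h3).trans h2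
  have ht := Nat.le_ceil |(t : ℝ)|
  intro z hz
  unfold DT at hz
  split_ifs at hz with h
  · obtain ⟨y, hy, rfl⟩ := Finset.mem_image.mp hz
    refine (hf y hy).trans ?_
    have h1 : (0 : ℝ) < 4 ^ (l + 1) := by positivity
    have h2 : (1 : ℝ) ≤ (⌈|(t : ℝ)|⌉₊ + 1 : ℕ) := by
      push_cast
      linarith [Nat.cast_nonneg (α := ℝ) ⌈|(t : ℝ)|⌉₊]
    nlinarith
  · obtain ⟨y, hy, r, hr, rfl⟩ := Finset.mem_image₂.mp hz
    have h1 := hf y hy
    rw [Finset.mem_Ioo] at hr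
    have h2 : |(r : ℝ)| ≤ 4 ^ (l + 1) := by
      have h3 : |r| ≤ 2 ^ (l + 1) := by
        rw [abs_le]
        constructor <;> linarith [hr.1, hr.2]
      have h4 : |(r : ℝ)| ≤ 2 ^ (l + 1) := by exact_mod_cast h3
      exact h4.trans (pow_le_pow_left₀ (by norm_num) (by norm_num) _)
    calc |(y : ℝ) / ((J l).factorial : ℝ) + (t : ℝ) * (r : ℝ)|
        ≤ |(y : ℝ) / ((J l).factorial : ℝ)| + |(t : ℝ) * (r : ℝ)| := abs_add_le _ _
      _ ≤ 4 ^ (l + 1) + ⌈|(t : ℝ)|⌉₊ * 4 ^ (l + 1) := by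
          rw [abs_mul]
          gcongr
      _ = (⌈|(t : ℝ)|⌉₊ + 1 : ℕ) * 4 ^ (l + 1) := by
          push_cast
          ring

theorem DT_card {J : ℕ → ℕ} (hJ : Tendsto J atTop atTop) {Δ : ℕ → Finset ℤ} {L : ℝ}
    (hcard : ∀ s : ℝ, L < s → ∀ᶠ l in atTop, ((Δ l).card : ℝ) ≤ (2 : ℝ) ^ (((l : ℝ) + 1) * s))
    (t : ℚ) (s : ℝ) (hs : L < s) :
    ∀ᶠ l in atTop, ((DT J Δ t l).card : ℝ) ≤ (2 : ℝ) ^ (((l : ℝ) + 1) * s) := by
  filter_upwards [hcard s hs, hJ.eventually_ge_atTop t.num.natAbs, hJ.eventually_ge_atTop t.den]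
    with l h1 h2 h3
  refine le_trans ?_ h1
  unfold DT
  rw [if_pos ⟨h2, h3⟩]
  exact_mod_cast Finset.card_image_le

/-- one coordinate: a translate of `ℚ x` -/
theorem coordQ (hDig : S_DIG) {K J : ℕ → ℕ} {Δ : ℕ → Finset ℤ}
    (hJK : ∀ l, J l * (J l).factorial ≤ K l)
    (hC : ∀ l, Ctr (K l) (2 ^ (l + 1)) (Δ l)) (hΔ : ∀ l, ∀ x ∈ Δ l, 0 ≤ x ∧ x ≤ 4 ^ (l + 1))
    (x : ℝ) (hx : |x| < 1) : ∃ a : ℝ, ∀ t : ℚ, a + t * x ∈ Y (DT J Δ t) := by
  obtain ⟨d, hd, hsum⟩ := hDig |x| (abs_nonneg _) hx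
  -- signed digits
  obtain ⟨ε, hε, hεx⟩ : ∃ ε : ℤ, |ε| = 1 ∧ x = ε * |x| := by
    rcases abs_cases x with ⟨h2, -⟩ | ⟨h2, -⟩
    · exact ⟨1, by simp, by rw [h2]; simp⟩
    · exact ⟨-1, by simp, by rw [h2]; simp⟩
  choose a ha using fun l => hC l (d l) (hd l).1 (by
    have := (hd l).2
    push_cast
    exact this)
  have hPpos : ∀ l, 0 < P l := fun l => by
    unfold P
    positivity
  have ha0 : ∀ l, 0 ≤ a l ∧ a l ≤ 4 ^ (l + 1) := by
    intro l
    have h2 := hΔ l _ (ha l 0 (by simp))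
    rw [zero_mul, add_zero] at h2
    exact h2
  have hfac : ∀ l, (1 : ℝ) ≤ ((J l).factorial : ℝ) := fun l => by
    exact_mod_cast (J l).factorial_pos
  have hs : Summable fun l => ((a l : ℝ) / ((J l).factorial : ℝ)) / P l := by
    refine Summable.of_nonneg_of_le (fun l => ?_) (fun l => ?_) summable_four
    · have h4 : (0 : ℝ) ≤ a l := by exact_mod_cast (ha0 l).1
      have := hPpos l
      have := hfac l
      positivity
    · have h4 : (0 : ℝ) ≤ a l := by exact_mod_cast (ha0 l).1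
      have h5 : (a l : ℝ) ≤ 4 ^ (l + 1) := by exact_mod_cast (ha0 l).2
      have := hPpos l
      have h6 := (div_le_self h4 (hfac l)).trans h5
      gcongr
  refine ⟨∑' l, ((a l : ℝ) / ((J l).factorial : ℝ)) / P l, fun t =>
    ⟨fun l => (a l : ℝ) / ((J l).factorial : ℝ) + (t : ℝ) * ((ε * d l : ℤ) : ℝ), fun l => ?_, ?_⟩⟩
  · unfold DT
    split_ifs with h
    · -- the digits for large `l`
      obtain ⟨h1, h2⟩ := h
      obtain ⟨g, hg⟩ : t.den ∣ (J l).factorial := Nat.dvd_factorial t.den_pos h2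
      have hgJ : g ≤ (J l).factorial := by
        rw [hg]
        exact Nat.le_mul_of_pos_left _ t.den_pos
      refine Finset.mem_image.mpr ⟨a l + (t.num * g * ε) * d l, ha l _ ?_, ?_⟩
      · rw [abs_mul, abs_mul, hε, mul_one, Nat.abs_cast]
        calc |t.num| * (g : ℤ) ≤ (J l : ℤ) * ((J l).factorial : ℤ) := by
              refine mul_le_mul ?_ (by exact_mod_cast hgJ) (by positivity) (by positivity)
              rw [Int.abs_eq_natAbs]
              exact_mod_cast h1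
          _ ≤ K l := by exact_mod_cast hJK l
      · have h3 : (0 : ℝ) < t.den := by exact_mod_cast t.den_pos
        have h4 : ((J l).factorial : ℝ) = t.den * g := by
          rw [hg]
          push_cast
          rfl
        have h6 : (t : ℝ) = (t.num : ℝ) / (t.den : ℝ) := by
          exact_mod_cast (Rat.num_div_den t).symm
        have hF : ((J l).factorial : ℝ) ≠ 0 := by
          have := hfac l
          linarith
        have key : (t : ℝ) * ((J l).factorial : ℝ) = t.num * g := by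
          rw [h6, h4]
          field_simp
        push_cast
        rw [div_eq_iff hF, add_mul, div_mul_cancel₀ _ hF]
        linear_combination (-((ε : ℝ) * (d l : ℝ))) * key
    · refine Finset.mem_image₂.mpr ⟨a l, ?_, ε * d l, ?_, rfl⟩
      · have h2 := ha l 0 (by simp)
        rwa [zero_mul, add_zero] at h2
      · rw [Finset.mem_Ioo, ← abs_lt, abs_mul, hε, one_mul, abs_of_nonneg (hd l).1]
        exact (hd l).2
  · have h2 := hs.hasSum.add (hsum.mul_left ((t : ℝ) * (ε : ℝ)))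
    rw [mul_assoc, ← hεx] at h2
    convert h2 using 1
    funext l
    push_cast
    ring

/-- a slowly growing function -/
theorem exists_J {K : ℕ → ℕ} (hK : Tendsto K atTop atTop) :
    ∃ J : ℕ → ℕ, Tendsto J atTop atTop ∧ ∀ l, J l * (J l).factorial ≤ K l := by
  refine ⟨fun l => Nat.findGreatest (fun m => m * m.factorial ≤ K l) (K l), ?_, fun l => ?_⟩
  · rw [tendsto_atTop]
    intro m
    filter_upwards [hK.eventually_ge_atTop (m * m.factorial)] with l hl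
    refine Nat.le_findGreatest ?_ hl
    exact (Nat.le_mul_of_pos_right m m.factorial_pos).trans hl
  · exact Nat.findGreatest_spec (P := fun m => m * m.factorial ≤ K l) (Nat.zero_le _) (by simp)

/-- **Existence.** A `σ`-compact set of packing dimension at most `n L` which contains a translate of
`ℚ r` for every `r`. -/
theorem exists_smallQ (hB : S_BIG) (hCt : S_CTR) (hSeq : S_SEQ) (hDig : S_DIG) (hCel : S_CEL2)
    (hClo : S_CLO) {f : ℕ → ℝ} {L : ℝ} (h : Exps f L) (n : ℕ) :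
    ∃ B : Set (E n), IsSigmaCompact B ∧
      (∀ r : E n, ∃ a : E n, ∀ t : ℚ, a + (t : ℝ) • r ∈ B) ∧
      packingDim B ≤ ((n * L : ℝ) : EReal) := by
  have hL : 0 ≤ L := le_trans (by norm_num) h.low
  obtain ⟨K, Δ, hK, hC, hΔ, hcard⟩ := hSeq L hL (big_ctr hB hCt h)
  obtain ⟨J, hJ, hJK⟩ := exists_J hK
  obtain ⟨e, he⟩ := exists_surjective_nat ℚ
  set S : ℕ → Set (E n) := fun i => cubeOf n (Y (DT J Δ (e i))) with hS
  have hSb : ∀ i, Bornology.IsBounded (S i) := fun i =>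
    bounded_cubeY hCel hL (DT_bound hΔ (e i)) (DT_card hJ hcard (e i)) n
  refine ⟨⋃ i, closure (S i), ?_, ?_, ?_⟩
  · refine isSigmaCompact_iUnion_of_isCompact _ fun i => ?_
    exact (hSb i).isCompact_closure
  · intro r
    obtain ⟨m, hm⟩ : ∃ m : ℕ, ∀ i, |r i| < m + 1 := by
      obtain ⟨m, hm⟩ := exists_nat_ge (∑ i, |r i|)
      refine ⟨m, fun i => ?_⟩
      have := Finset.single_le_sum (f := fun i => |r i|) (fun i _ => abs_nonneg _) (Finset.mem_univ i)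
      linarith
    have hm0 : (0 : ℝ) < m + 1 := by positivity
    have h2 : ∀ i, ∃ a : ℝ, ∀ t : ℚ, a + t * (r i / (m + 1)) ∈ Y (DT J Δ t) := by
      intro i
      refine coordQ hDig hJK hC hΔ _ ?_
      rw [abs_div, abs_of_pos hm0, div_lt_one hm0]
      exact hm i
    choose a ha using h2
    refine ⟨WithLp.toLp 2 a, fun t => ?_⟩
    obtain ⟨i, hi⟩ := he (t * (m + 1))
    refine Set.mem_iUnion.mpr ⟨i, subset_closure ?_⟩
    simp only [hS, hi]
    intro l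
    have h3 := ha l (t * (m + 1))
    have e1 : (WithLp.toLp 2 a + (t : ℝ) • r : E n) l =
        a l + ((t * (m + 1) : ℚ) : ℝ) * (r l / (m + 1)) := by
      simp only [PiLp.smul_apply, PiLp.add_apply, smul_eq_mul]
      push_cast
      field_simp
    rw [e1]
    exact h3
  · refine packingDim_le (fun i => closure (S i)) (fun i => (hSb i).closure) le_rfl fun i => ?_
    refine (hClo n (S i) (hSb i)).trans ?_
    exact upper_Y hCel hL (DT_bound hΔ (e i)) (DT_card hJ hcard (e i)) n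

end Pool.Agent.H89IP
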