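import Pool.Agent.H89IP.Low2
import Pool.Agent.H89IP.Up
import Pool.Agent.H89IP.Stm3

/-!
# Project IP: the main statements, given the pieces
-/

set_option autoImplicit false

open Finset Filter Topology MeasureTheory

namespace Pool.Agent.H89IP

open Pool.Agent.Results.MP_4b405e_nt.ExactExponent (E coverNum upperMinkowski infDim HasProgressions)

theorem LongIn.mono {n : ℕ} {B B' : Set (E n)} {r : E n} (h : LongIn B r) (hB : B ⊆ B') :
    LongIn B' r := by
  intro k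
  obtain ⟨a, q, hq, ha⟩ := h k
  exact ⟨a, q, hq, fun j hj => hB (ha j hj)⟩

/-- arbitrary sets of common differences -/
theorem lower_any (hDil : S_DIL) {f : ℕ → ℝ} {L : ℝ} (h : Exps f L) {n : ℕ} (R B : Set (E n))
    (hB : ∀ r ∈ R, LongIn B r) (s : ℝ) (hs : (s : EReal) ≤ packingDim R) :
    ((L * s : ℝ) : EReal) ≤ packingDim B := by
  have h1 : ∀ᶠ k in atTop, ((f k * s : ℝ) : EReal) ≤ packingDim B := by
    filter_upwards [eventually_ge_atTop 2] with k hk
    obtain ⟨w, hw0, hw1, hw⟩ := h.cover k hk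
    exact low_gen hDil (by linarith [h.half k hk]) hw0 hw1 (hw n) R B (fun r hr => hB r hr k) s hs
  have h2 : Tendsto (fun k => ((f k * s : ℝ) : EReal)) atTop (𝓝 ((L * s : ℝ) : EReal)) :=
    (continuous_coe_real_ereal.tendsto _).comp (h.lim.mul_const s)
  exact le_of_tendsto h2 h1

/-- long progressions, a set of times of positive upper Banach density, of positive relative upper
density in the primes, or of positive outer measure -/
def Rich {n : ℕ} (B : Set (E n)) (r : E n) : Prop :=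
  LongIn B r ∨ (∃ a : E n, PosBanach {j : ℤ | a + (j : ℝ) • r ∈ B}) ∨
    (∃ a : E n, PosPrimes {j : ℤ | a + (j : ℝ) • r ∈ B}) ∨
    ∃ a : E n, volume {t : ℝ | a + t • r ∈ B} ≠ 0

theorem longIn_of_int {n : ℕ} {B : Set (E n)} {r a : E n}
    (h : ∀ k : ℕ, ∃ t d : ℤ, 0 < d ∧ ∀ j : ℕ, j < k → t + j * d ∈ {j : ℤ | a + (j : ℝ) • r ∈ B}) :
    LongIn B r := by
  intro k
  obtain ⟨t, d, hd, ht⟩ := h k
  refine ⟨a + (t : ℝ) • r, (d : ℚ), by exact_mod_cast hd.ne', fun j hj => ?_⟩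
  have h2 := ht j hj
  have e : a + (t : ℝ) • r + ((j : ℝ) * (((d : ℤ) : ℚ) : ℝ)) • r =
      a + ((t + j * d : ℤ) : ℝ) • r := by
    push_cast
    rw [add_smul, add_assoc]
  rw [e]
  exact h2

theorem longIn_of_rich (hLeb : S_LEB) (hSz : S_SZE) (hPri : S_PRI) {n : ℕ} {B : Set (E n)}
    {r : E n} (hr : Rich B r) (S : ℕ → Set (E n)) (hBS : B ⊆ ⋃ i, S i) :
    LongIn (⋃ i, closure (S i)) r := by
  have hsub : B ⊆ ⋃ i, closure (S i) := fun x hx => by
    obtain ⟨i, hi⟩ := Set.mem_iUnion.mp (hBS hx)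
    exact Set.mem_iUnion.mpr ⟨i, subset_closure hi⟩
  rcases hr with hr | ⟨a, ha⟩ | ⟨a, ha⟩ | ⟨a, ha⟩
  · exact hr.mono hsub
  · exact LongIn.mono (longIn_of_int (hSz _ ha)) hsub
  · exact LongIn.mono (longIn_of_int (hPri _ ha)) hsub
  · intro k
    obtain ⟨i, hi⟩ : ∃ i, volume {t : ℝ | a + t • r ∈ closure (S i)} ≠ 0 := by
      by_contra hcon
      push Not at hcon
      apply ha
      refine measure_mono_null ?_ (measure_iUnion_null hcon)
      intro t ht
      obtain ⟨i, hi⟩ := Set.mem_iUnion.mp (hBS ht)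
      exact Set.mem_iUnion.mpr ⟨i, subset_closure hi⟩
    have hc : IsClosed {t : ℝ | a + t • r ∈ closure (S i)} :=
      isClosed_closure.preimage (by fun_prop : Continuous fun t : ℝ => a + t • r)
    obtain ⟨t, q, hq, ht⟩ := hLeb _ hc hi k
    have hq' : (0 : ℝ) < q := by exact_mod_cast hq
    refine ⟨a + t • r, 1 / (q : ℚ), by positivity, fun j hj => Set.mem_iUnion.mpr ⟨i, ?_⟩⟩
    have h2 := ht j hj
    have e : a + (t + (j : ℝ) * (1 / (q : ℝ))) • r =
        a + t • r + ((j : ℝ) * ((1 / (q : ℚ) : ℚ) : ℝ)) • r := by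
      push_cast
      rw [add_smul, add_assoc]
    rw [← e]
    exact h2

/-- **The lower bound** for arbitrary sets `R` of common differences. -/
theorem lower_rich (hDil : S_DIL) (hLeb : S_LEB) (hSz : S_SZE) (hPri : S_PRI) (hClo : S_CLO) {f : ℕ → ℝ} {L : ℝ}
    (h : Exps f L) {n : ℕ} (R B : Set (E n)) (hB : ∀ r ∈ R, Rich B r) (s : ℝ)
    (hs : (s : EReal) ≤ packingDim R) : ((L * s : ℝ) : EReal) ≤ packingDim B := by
  refine le_packingDim fun S hS hBS => ?_
  have h1 : ((L * s : ℝ) : EReal) ≤ packingDim (⋃ i, closure (S i)) :=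
    lower_any hDil h R _ (fun r hr => longIn_of_rich hLeb hSz hPri (hB r hr) S hBS) s hs
  refine h1.trans (packingDim_le (fun i => closure (S i)) (fun i => (hS i).closure) le_rfl fun i => ?_)
  exact (hClo n (S i) (hS i)).trans (le_iSup (fun i => upperMinkowski (S i)) i)

/-- sets of positive outer measure have packing dimension at least `n` -/
theorem packingDim_of_volume (hOut : S_OUT) {n : ℕ} (R : Set (E n)) (hR : volume R ≠ 0) :
    ((n : ℝ) : EReal) ≤ packingDim R := by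
  refine le_packingDim fun S hS hRS => ?_
  obtain ⟨i, hi⟩ : ∃ i, volume (S i) ≠ 0 := by
    by_contra hcon
    push Not at hcon
    exact hR (measure_mono_null hRS (measure_iUnion_null hcon))
  refine le_trans ?_ (le_iSup (fun i => upperMinkowski (S i)) i)
  obtain ⟨c, hc, h⟩ := hOut n (S i) (hS i) hi
  by_contra hlt
  rw [not_le] at hlt
  obtain ⟨u, hu1, hu2⟩ := EReal.lt_iff_exists_real_btwn.1 hlt
  have hu2' : u < n := by exact_mod_cast hu2
  have h3 := low_ev59 (S i) u hu1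
  have h4 : ∀ᶠ δ : ℝ in 𝓝[>] 0, δ < 1 := by
    apply eventually_nhdsWithin_of_eventually_nhds
    exact eventually_lt_nhds one_pos
  have h5 : ∀ᶠ δ : ℝ in 𝓝[>] 0, (1 / δ) ^ (n - u) ≤ 1 / c := by
    filter_upwards [h3, h4, eventually_mem_nhdsWithin] with δ h6 h7 h8
    have hδ : (0 : ℝ) < δ := h8
    have hd : 0 < 1 / δ := by positivity
    have h9 := (h δ hδ h7.le).trans h6
    rw [Real.rpow_sub hd, Real.rpow_natCast, div_le_iff₀ (by positivity), div_mul_eq_mul_div,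
      one_mul, le_div_iff₀ hc]
    linarith [mul_comm c ((1 / δ) ^ n)]
  have h6 : Tendsto (fun δ : ℝ => (1 / δ) ^ (n - u)) (𝓝[>] 0) atTop := by
    have h7 : Tendsto (fun δ : ℝ => 1 / δ) (𝓝[>] 0) atTop := by
      simp only [one_div]
      exact tendsto_inv_nhdsGT_zero
    exact (tendsto_rpow_atTop (by linarith)).comp h7
  obtain ⟨δ, h8, h9⟩ := (h5.and (h6.eventually_gt_atTop (1 / c))).exists
  exact absurd h8 (not_le.2 h9)

/-- a bounded set has upper Minkowski dimension at most `n` -/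
theorem upper_bounded {n : ℕ} {S : Set (E n)} (hS : Bornology.IsBounded S) :
    upperMinkowski S ≤ ((n : ℝ) : EReal) := by
  obtain ⟨A₀, hA₀⟩ := hS.subset_closedBall (0 : E n)
  set A : ℝ := max A₀ 1 with hA
  have hA1 : 1 ≤ A := le_max_right _ _
  have hAS : ∀ x ∈ S, ∀ i, |x i| ≤ A := by
    intro x hx i
    have h1 := hA₀ hx
    rw [Metric.mem_closedBall, dist_zero_right, EuclideanSpace.norm_eq] at h1
    refine le_trans ?_ (h1.trans (le_max_left _ _))
    refine Real.le_sqrt_of_sq_le ?_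
    rw [← Real.norm_eq_abs]
    exact Finset.single_le_sum (f := fun i => ‖x i‖ ^ 2) (fun _ _ => sq_nonneg _)
      (Finset.mem_univ i)
  refine Pool.Agent.Helper66x.AK.upper_le (C := (4 * A) ^ n * (((4 * (n + 1)) ^ n : ℕ) : ℝ))
    (by positivity) (by positivity) fun δ hδ hδ1 => ?_
  set F : Finset ℤ := Finset.Icc ⌊-A / δ⌋ ⌊A / δ⌋ with hF
  have h1 : coverNum S δ ≤ (∏ _i : Fin n, F.card) * (4 * (n + 1)) ^ n :=
    Pool.Agent.Helper66x.AK.cover_cells hδ (B := S) (fun _ => F) fun y hy i => by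
      have h2 := abs_le.mp (hAS y hy i)
      rw [hF, Finset.mem_Icc]
      exact ⟨Int.floor_le_floor (by gcongr; exact h2.1), Int.floor_le_floor (by gcongr; exact h2.2)⟩
  have hFc : (F.card : ℝ) ≤ 4 * A * (1 / δ) := by
    rw [hF, Int.card_Icc]
    have h2 : ⌊-A / δ⌋ ≤ ⌊A / δ⌋ := Int.floor_le_floor (by gcongr; linarith)
    have h3 : (((⌊A / δ⌋ + 1 - ⌊-A / δ⌋).toNat : ℤ) : ℝ) = ⌊A / δ⌋ + 1 - ⌊-A / δ⌋ := by
      rw [Int.toNat_of_nonneg (by linarith)]
      push_cast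
      ring
    have h4 := Int.floor_le (A / δ)
    have h5 := Int.lt_floor_add_one (-A / δ)
    have h6 : (((⌊A / δ⌋ + 1 - ⌊-A / δ⌋).toNat : ℕ) : ℝ) = ⌊A / δ⌋ + 1 - ⌊-A / δ⌋ := by
      exact_mod_cast h3
    rw [h6]
    have h7 : A / δ = A * (1 / δ) := by ring
    have h8 : -A / δ = -(A * (1 / δ)) := by ring
    rw [h8] at h5
    rw [h7] at h4
    rw [h7, h8]
    have h9 : 1 ≤ 1 / δ := by
      rw [le_div_iff₀ hδ]
      linarith
    nlinarith
  have h2 : ((∏ _i : Fin n, F.card : ℕ) : ℝ) ≤ (4 * A * (1 / δ)) ^ n :=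
    Pool.Agent.Helper66x.AK.prod_card_le (F := fun _ => F) fun _ => hFc
  have h3 : (4 * A * (1 / δ)) ^ n = (4 * A) ^ n * (1 / δ) ^ (n : ℝ) := by
    rw [mul_pow, Real.rpow_natCast]
  rw [h3] at h2
  change (coverNum S δ : ℝ) ≤ _
  calc (coverNum S δ : ℝ) ≤
        (((∏ _i : Fin n, F.card) * (4 * (n + 1)) ^ n : ℕ) : ℝ) := by exact_mod_cast h1
    _ = ((∏ _i : Fin n, F.card : ℕ) : ℝ) * (((4 * (n + 1)) ^ n : ℕ) : ℝ) := by rw [Nat.cast_mul]
    _ ≤ ((4 * A) ^ n * (1 / δ) ^ (n : ℝ)) * (((4 * (n + 1)) ^ n : ℕ) : ℝ) :=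
        mul_le_mul_of_nonneg_right h2 (Nat.cast_nonneg _)
    _ = (4 * A) ^ n * (((4 * (n + 1)) ^ n : ℕ) : ℝ) * (1 / δ) ^ (n : ℝ) := by ring

theorem packingDim_le_n {n : ℕ} (B : Set (E n)) : packingDim B ≤ ((n : ℝ) : EReal) := by
  refine packingDim_le (fun i : ℕ => Metric.closedBall (0 : E n) i)
    (fun i => Metric.isBounded_closedBall) (fun x _ => ?_)
    fun i => upper_bounded Metric.isBounded_closedBall
  obtain ⟨m, hm⟩ := exists_nat_ge ‖x‖
  exact Set.mem_iUnion.2 ⟨m, by rwa [Metric.mem_closedBall, dist_zero_right]⟩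

end Pool.Agent.H89IP
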