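import Pool.Agent.H89IP.Stm

/-!
# Project IP, piece OUT (helper51): covering numbers of sets of positive outer measure
-/

set_option autoImplicit false

open Finset Filter Topology MeasureTheory

namespace Pool.Agent.H89IP

open Pool.Agent.Results.MP_4b405e_nt.ExactExponent (E coverNum upperMinkowski)

/-- **OUT** -/
theorem t_OUT : S_OUT := by
  intro n R hR hv
  obtain ⟨V, hV⟩ : ∃ V : ENNReal, V = volume (Metric.ball (0 : E n) 1) := ⟨_, rfl⟩
  have hVt : V ≠ ⊤ := by
    rw [hV]
    exact measure_ball_lt_top.ne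
  have hV0 : V ≠ 0 := by
    rw [hV]
    exact (Metric.measure_ball_pos volume _ one_pos).ne'
  have hRt : volume R ≠ ⊤ := hR.measure_lt_top.ne
  have hVp : 0 < V.toReal := ENNReal.toReal_pos hV0 hVt
  have hRp : 0 < (volume R).toReal := ENNReal.toReal_pos hv hRt
  refine ⟨(volume R).toReal / V.toReal, div_pos hRp hVp, fun δ hδ _ => ?_⟩
  have hdn : 0 < δ ^ n := pow_pos hδ n
  obtain ⟨U, hU, hc⟩ : ∃ U : Fin (coverNum R δ) → Set (E n),
      (∀ i, ∀ x ∈ U i, ∀ y ∈ U i, dist x y ≤ δ) ∧ R ⊆ ⋃ i, U i :=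
    Pool.Agent.V11295.ProgAny.exists_cover hR hδ
  have h1 : ∀ i, volume (U i) ≤ ENNReal.ofReal (δ ^ n) * V := by
    intro i
    rcases (U i).eq_empty_or_nonempty with h | ⟨x, hx⟩
    · rw [h, measure_empty]
      exact zero_le
    · have h0 : U i ⊆ Metric.closedBall x δ := fun y hy => Metric.mem_closedBall.2 (hU i y hy x hx)
      refine (measure_mono h0).trans (le_of_eq ?_)
      rw [Measure.addHaar_closedBall volume x hδ.le, finrank_euclideanSpace_fin, hV]
  have h2 : volume R ≤ (coverNum R δ : ENNReal) * (ENNReal.ofReal (δ ^ n) * V) := by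
    refine (measure_mono hc).trans ((measure_iUnion_le _).trans ?_)
    rw [tsum_fintype]
    refine (Finset.sum_le_sum fun i _ => h1 i).trans (le_of_eq ?_)
    rw [Finset.sum_const, Finset.card_univ, Fintype.card_fin, nsmul_eq_mul]
  have h3 : (volume R).toReal ≤ coverNum R δ * (δ ^ n * V.toReal) := by
    have h4 := ENNReal.toReal_mono
      (ENNReal.mul_ne_top (ENNReal.natCast_ne_top _) (ENNReal.mul_ne_top ENNReal.ofReal_ne_top hVt)) h2
    rwa [ENNReal.toReal_mul, ENNReal.toReal_mul, ENNReal.toReal_natCast, ENNReal.toReal_ofReal hdn.le] at h4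
  rw [div_mul_eq_mul_div, div_le_iff₀ hVp, one_div, inv_pow, ← div_eq_mul_inv, div_le_iff₀ hdn]
  calc (volume R).toReal ≤ coverNum R δ * (δ ^ n * V.toReal) := h3
    _ = coverNum R δ * V.toReal * δ ^ n := by ring

end Pool.Agent.H89IP
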