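import Pool.Agent.H89IP.Stm3
import Pool.Agent.Helper66x.ST.Szem

/-!
# Project IP, piece PRI (helper66): Szemerédi's theorem in the primes
-/

set_option autoImplicit false

open Filter Topology

namespace Pool.Agent.H89IP

theorem t_PRI : S_PRI := by
  classical
  rintro T ⟨η, hη, h⟩ k
  obtain ⟨B, X₀, hR⟩ := Pool.Agent.Helper66x.ST.rich_primes k hη
  obtain ⟨X, hX, hc⟩ := h X₀
  have hpi : (Pool.Agent.Helper66x.ST.primes X).card = Nat.primeCounting X := by
    rw [Nat.primeCounting, Nat.primeCounting', Nat.count_eq_card_filter_range]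
    rfl
  set S : Finset ℕ := (Pool.Agent.Helper66x.ST.primes X).filter (fun p => (p : ℤ) ∈ T) with hS
  have hset : {p : ℕ | p ≤ X ∧ p.Prime ∧ (p : ℤ) ∈ T} = (S : Set ℕ) := by
    ext p
    simp only [hS, Pool.Agent.Helper66x.ST.primes, Set.mem_ofPred_eq, Finset.coe_filter,
      Finset.mem_filter, Finset.mem_range, Nat.lt_succ_iff, and_assoc]
  rw [hset, Set.ncard_coe_finset] at hc
  obtain ⟨a, d, hd, -, hj⟩ := hR X hX S (Finset.filter_subset _ _) (by rw [hpi]; exact hc)
  refine ⟨a, d, by exact_mod_cast hd, fun j hjk => ?_⟩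
  have h1 := (Finset.mem_filter.1 (hj j hjk)).2
  push_cast at h1
  exact h1

end Pool.Agent.H89IP
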