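import Pool.Agent.H89IP.Stm

set_option autoImplicit false

open Finset Filter Topology MeasureTheory

namespace Pool.Agent.H89IP

theorem t_SEQ : S_SEQ := by
  classical
  intro L hL h
  choose M₀ hM₀ using fun K : ℕ => h K (L + 1 / ((K : ℝ) + 1)) (by
    have : 0 < 1 / ((K : ℝ) + 1) := by positivity
    linarith)
  set Kf : ℕ → ℕ := fun l => Nat.findGreatest (fun K => M₀ K ≤ 2 ^ (l + 1)) l with hKf
  -- one step
  have step : ∀ l : ℕ, ∃ Δ : Finset ℤ, Ctr (Kf l) (2 ^ (l + 1)) Δ ∧ (∀ x ∈ Δ, 0 ≤ x ∧ x ≤ 4 ^ (l + 1)) ∧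
      (Δ.card : ℝ) ≤ ((2 : ℝ) ^ (l + 1)) ^ (L + 1 / ((Kf l : ℝ) + 1)) := by
    intro l
    by_cases hP : M₀ (Kf l) ≤ 2 ^ (l + 1)
    · obtain ⟨Δ, h1, h2, h3⟩ := hM₀ (Kf l) (2 ^ (l + 1)) hP
      refine ⟨Δ, h1, fun x hx => ⟨(h2 x hx).1, ?_⟩, ?_⟩
      · refine (h2 x hx).2.trans (le_of_eq ?_)
        push_cast
        rw [← pow_mul, mul_comm, pow_mul]
        norm_num
      · push_cast at h3
        exact h3
    · have h0 : Kf l = 0 := by
        by_contra hne
        exact hP (Nat.findGreatest_of_ne_zero (P := fun K => M₀ K ≤ 2 ^ (l + 1)) (n := l) rfl hne)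
      refine ⟨{0}, ?_, ?_, ?_⟩
      · rw [h0]
        intro r _ _
        refine ⟨0, fun j hj => ?_⟩
        have : j = 0 := by
          rw [Nat.cast_zero] at hj
          exact abs_nonpos_iff.1 hj
        rw [this]
        simp
      · intro x hx
        rw [Finset.mem_singleton] at hx
        subst hx
        exact ⟨le_refl _, by positivity⟩
      · rw [Finset.card_singleton, Nat.cast_one]
        apply Real.one_le_rpow
        · exact one_le_pow₀ (by norm_num)
        · positivity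
  choose Δ h1 h2 h3 using step
  have hK : Tendsto Kf atTop atTop := by
    rw [tendsto_atTop]
    intro b
    filter_upwards [eventually_ge_atTop b, eventually_ge_atTop (M₀ b)] with l hl1 hl2
    refine Nat.le_findGreatest hl1 ?_
    have : l < 2 ^ l := Nat.lt_two_pow_self
    have : 2 ^ l ≤ 2 ^ (l + 1) := Nat.pow_le_pow_right (by norm_num) (Nat.le_succ l)
    omega
  refine ⟨Kf, Δ, hK, h1, h2, fun s hs => ?_⟩
  have hsL : 0 < s - L := by linarith
  obtain ⟨b, hb⟩ := exists_nat_one_div_lt hsL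
  filter_upwards [hK.eventually_ge_atTop b] with l hl
  refine (h3 l).trans ?_
  have e1 : (2 : ℝ) ^ (((l : ℝ) + 1) * s) = ((2 : ℝ) ^ (l + 1)) ^ s := by
    rw [Real.rpow_mul (by norm_num), ← Nat.cast_add_one, Real.rpow_natCast]
  rw [e1]
  apply Real.rpow_le_rpow_of_exponent_le
  · exact one_le_pow₀ (by norm_num)
  · have : 1 / ((Kf l : ℝ) + 1) ≤ 1 / ((b : ℝ) + 1) := by
      apply one_div_le_one_div_of_le
      · positivity
      · have : (b : ℝ) ≤ Kf l := by exact_mod_cast hl
        linarith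
    linarith

end Pool.Agent.H89IP
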