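import Pool.Agent.H89IP.Stm
import Pool.Agent.N524.Szem

/-!
# Project IP, piece SZE: Szemerédi's theorem for positive upper Banach density
-/

set_option autoImplicit false

open Finset Filter Topology MeasureTheory

namespace Pool.Agent.H89IP

theorem sze_windows (S : Finset ℤ) (δ : ℝ) (hδ : 0 < δ) : ∃ s₀ : ℕ, ∀ s ≥ s₀,
    ∀ E ⊆ Finset.Icc (-(s : ℤ)) s, δ * (2 * s + 1) ≤ (E.card : ℝ) →
      ∃ (a : ℤ) (j : ℕ), 1 ≤ j ∧ ∀ w ∈ S, a + j * w ∈ E := by
  have hcard : ∀ s : ℕ, (Finset.Icc (-(s : ℤ)) s).card = 2 * s + 1 := by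
    intro s
    rw [Int.card_Icc]
    omega
  obtain ⟨s₀, h⟩ := Pool.Agent.N524.szem_abs (G := ℤ) (fun s => Finset.Icc (-(s : ℤ)) s) 2
    (by norm_num)
    (by
      intro s t hst x hx
      simp only [Finset.mem_Icc] at hx ⊢
      omega)
    (by
      intro v
      refine ⟨v.natAbs, fun s u hu => ?_⟩
      simp only [Finset.mem_Icc] at hu ⊢
      omega)
    (by
      intro K
      refine ⟨K, fun s hs => ?_⟩
      rw [hcard, hcard]
      have : (K : ℝ) ≤ s := by exact_mod_cast hs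
      push_cast
      linarith)
    (by
      intro s
      exact ⟨0, by simp⟩)
    S δ hδ
  refine ⟨s₀, fun s hs E hE hc => ?_⟩
  obtain ⟨a, j, hj, hw⟩ := h s hs E hE (by
    rw [hcard]
    push_cast
    exact hc)
  refine ⟨a, j, hj, fun w hwS => ?_⟩
  have := hw w hwS
  rwa [nsmul_eq_mul] at this

/-- **Piece SZE.** -/
theorem t_SZE : S_SZE := by
  classical
  intro T ⟨η, hη, hT⟩ k
  obtain ⟨s₀, hs₀⟩ := sze_windows ((Finset.range k).image (fun j : ℕ => (j : ℤ))) (η / 3)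
    (by positivity)
  obtain ⟨N, hN, t, ht⟩ := hT (max s₀ 1)
  have hN0 : s₀ ≤ N := (le_max_left _ _).trans hN
  have hN1 : 1 ≤ N := (le_max_right _ _).trans hN
  obtain ⟨E, hE⟩ : ∃ E : Finset ℤ, E = (Finset.Ico (0 : ℤ) N).filter (fun x => x + t ∈ T) :=
    ⟨_, rfl⟩
  have hset : T ∩ Set.Ico t (t + N) = (fun x : ℤ => x + t) '' (E : Set ℤ) := by
    ext x
    simp only [Set.mem_inter_iff, Set.mem_Ico, Set.mem_image, Finset.mem_coe, hE,
      Finset.mem_filter, Finset.mem_Ico]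
    constructor
    · rintro ⟨h1, h2, h3⟩
      exact ⟨x - t, ⟨⟨by omega, by omega⟩, by rwa [sub_add_cancel]⟩, by ring⟩
    · rintro ⟨y, ⟨⟨h1, h2⟩, h3⟩, rfl⟩
      exact ⟨h3, by omega, by omega⟩
  have hcard : (T ∩ Set.Ico t (t + N)).ncard = E.card := by
    rw [hset, Set.ncard_image_of_injective _ (add_left_injective t), Set.ncard_coe_finset]
  rw [hcard] at ht
  obtain ⟨a, j, hj, h⟩ := hs₀ N hN0 E (by
      intro x hx
      rw [hE, Finset.mem_filter, Finset.mem_Ico] at hx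
      rw [Finset.mem_Icc]
      omega) (by
      refine le_trans ?_ ht
      have h1 : (1 : ℝ) ≤ N := by exact_mod_cast hN1
      calc η / 3 * (2 * (N : ℝ) + 1) ≤ η / 3 * (3 * N) :=
            mul_le_mul_of_nonneg_left (by linarith) (by positivity)
        _ = η * N := by ring)
  refine ⟨a + t, j, by exact_mod_cast hj, fun i hi => ?_⟩
  have h1 := h (i : ℤ) (Finset.mem_image.2 ⟨i, Finset.mem_range.2 hi, rfl⟩)
  rw [hE, Finset.mem_filter] at h1
  have h2 : a + t + (i : ℤ) * (j : ℤ) = a + (j : ℤ) * (i : ℤ) + t := by ring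
  rw [h2]
  exact h1.2

end Pool.Agent.H89IP
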