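import Pool.Agent.H88RD.Up
import Pool.Agent.Helper66x.AK.RealW
import Pool.Agent.Results.MP_4b405e_nt.ExactExponent

/-!
# Project IP (helper89), MP_4b405e_nt: infinite arithmetic progressions and packing dimension

Theorem: with `L = lim f(k)` (`f^M_n(k) = n f(k)`, starting from `ExactExponent`): the least packing dimension
of a set in `ℝ^n` which contains an INFINITE progression `a + j r`, `j ∈ ℤ`, with every common
difference `r` is exactly `n L` (attained), and `n L` is a lower bound if for every `r` in a set of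
positive outer measure the times `t` with `a + t r ∈ B` contain long progressions (positive upper
Banach density, or positive outer Lebesgue measure). So Q1 is equivalent to its infinite version.

Every piece is independent of the others.
-/

set_option autoImplicit false

open Finset Filter Topology MeasureTheory

namespace Pool.Agent.H89IP

open Pool.Agent.Results.MP_4b405e_nt.ExactExponent (E coverNum upperMinkowski)
open Pool.Agent.H88RD (Pr)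
open Pool.Agent.Helper66x.AK (cubeOf)

/-- centred progressions: for every common difference `0 ≤ r < M` there is `a` with `a + j r ∈ Δ` for
`|j| ≤ K` -/
def Ctr (K M : ℕ) (Δ : Finset ℤ) : Prop :=
  ∀ r : ℤ, 0 ≤ r → r < M → ∃ a : ℤ, ∀ j : ℤ, |j| ≤ K → a + j * r ∈ Δ

/-- the denominators `2 ^ (1 + 2 + ... + (l + 1))` of the mixed radix expansion with bases
`2, 4, 8, ...` -/
noncomputable def P (l : ℕ) : ℝ := (2 : ℝ) ^ ((l + 1) * (l + 2) / 2)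

/-- the real numbers `∑ d_l / P_l` with `|d_l| ≤ c 4^(l+1)` for all `l` and `d_l ∈ Δ_l` for `l ≥ l₁` -/
def X (c l₁ : ℕ) (Δ : ℕ → Finset ℤ) : Set ℝ :=
  {x | ∃ d : ℕ → ℤ, (∀ l, |d l| ≤ c * 4 ^ (l + 1)) ∧ (∀ l, l₁ ≤ l → d l ∈ Δ l) ∧
    HasSum (fun l => (d l : ℝ) / P l) x}

/-- packing dimension (modified upper box-counting dimension) -/
noncomputable def packingDim {n : ℕ} (B : Set (E n)) : EReal :=
  ⨅ (S : ℕ → Set (E n)) (_ : ∀ i, Bornology.IsBounded (S i)) (_ : B ⊆ ⋃ i, S i),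
    ⨆ i, upperMinkowski (S i)

/-- (CTR, 50 lines) `H88RD.Base.compress` for `n = 1` (or directly: `φ x` = number of the `y < x` in
the union of the intervals `[d, d + M)`, `d ∈ Δ`; `φ (x + r) = φ x + r` for `x ∈ Δ`, `0 ≤ r < M`;
`0 ≤ φ x ≤ M |Δ|`), then recentre: `a + K r` instead of `a`. -/
def S_CTR : Prop := ∀ (K M : ℕ) (Δ : Finset ℤ), 1 ≤ M → Pr (2 * K + 1) M Δ →
  ∃ Δ' : Finset ℤ, Δ'.card ≤ Δ.card ∧ (∀ x ∈ Δ', 0 ≤ x ∧ x ≤ M * Δ.card) ∧ Ctr K M Δ'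

/-- (BIG, 60 lines) one good `M` gives all large `M`. Let `s' = (f + s) / 2`, `2 ≤ m` and `Δ₀` with
`Pr k m Δ₀`, `|Δ₀| ≤ m^s'`. For `M ≥ m` let `N = Nat.clog m M` (so `m^(N-1) < M ≤ m^N`), and use
`H88RD.Up.Pr_pow` (and `Pr` is monotone in `M`): `|Δ| ≤ m^(s' N) = m^s' (m^(N-1))^s' ≤ m^s' M^s' ≤ M^s`
as soon as `M^(s - s') ≥ m^s'`. -/
def S_BIG : Prop := ∀ (k : ℕ) (f s : ℝ), 0 ≤ f → f < s →
  (∀ s' : ℝ, f < s' → ∃ M : ℕ, 2 ≤ M ∧ ∃ Δ : Finset ℤ, Pr k M Δ ∧ (Δ.card : ℝ) ≤ (M : ℝ) ^ s') →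
  ∃ M₀ : ℕ, ∀ M : ℕ, M₀ ≤ M → ∃ Δ : Finset ℤ, Pr k M Δ ∧ (Δ.card : ℝ) ≤ (M : ℝ) ^ s

/-- (SEQ, 70 lines) diagonal sequence. Choose `M₀ K` for `s = L + 1 / (K + 1)`; for `K = 0` use
`Δ = {0}` and `M₀ 0 = 0`. Let `K_l = Nat.findGreatest (fun K => M₀ K ≤ 2^(l+1)) l`. -/
def S_SEQ : Prop := ∀ L : ℝ, 0 ≤ L →
  (∀ (K : ℕ) (s : ℝ), L < s → ∃ M₀ : ℕ, ∀ M : ℕ, M₀ ≤ M → ∃ Δ : Finset ℤ, Ctr K M Δ ∧
    (∀ x ∈ Δ, 0 ≤ x ∧ x ≤ (M : ℤ) ^ 2) ∧ (Δ.card : ℝ) ≤ (M : ℝ) ^ s) →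
  ∃ (K : ℕ → ℕ) (Δ : ℕ → Finset ℤ), Tendsto K atTop atTop ∧
    (∀ l, Ctr (K l) (2 ^ (l + 1)) (Δ l)) ∧ (∀ l, ∀ x ∈ Δ l, 0 ≤ x ∧ x ≤ 4 ^ (l + 1)) ∧
    ∀ s : ℝ, L < s → ∀ᶠ l in atTop, ((Δ l).card : ℝ) ≤ (2 : ℝ) ^ (((l : ℝ) + 1) * s)

/-- (DIG, 60 lines) mixed radix digits `d_l = ⌊x P_l⌋ mod 2^(l+1)`; note `P (l+1) = 2^(l+2) P l`,
`P 0 = 2`; the partial sums are `⌊x P_l⌋ / P_l`. -/
def S_DIG : Prop := ∀ x : ℝ, 0 ≤ x → x < 1 → ∃ d : ℕ → ℤ, (∀ l, 0 ≤ d l ∧ d l < 2 ^ (l + 1)) ∧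
  HasSum (fun l => (d l : ℝ) / P l) x

/-- (CEL, 120 lines) the cells of `X` at the scale `δ`. Let `σ = 2^m c₀ / P m` bound the tails
`∑_{l > m} c 4^(l+1) / P l` (the terms decrease geometrically for `l ≥ 3`). The partial sums
`∑_{l ≤ m} d_l / P l` take at most `∏_{l < max l₁ l₂} (2 c 4^(l+1) + 1) * ∏_{l₂ ≤ l ≤ m} 2^((l+1) s)
≤ C 2^(s (m+1)(m+2)/2) = C (P m)^s` values, so for the least `m` with `σ_m ≤ δ` there are at most
`3 C (P m)^s` cells, `1/δ ≥ 1 / σ_(m-1) = P (m-1) / (c₀ 2^(m-1))`, and `P m = 2^(m+1) P (m-1)` is at most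
`C' (P (m-1) / 2^(m-1))^(s'/s)` (quadratic exponents), `s' > s`. -/
def S_CEL : Prop := ∀ (c l₁ : ℕ) (Δ : ℕ → Finset ℤ) (s s' : ℝ), 0 ≤ s → s < s' →
  (∀ᶠ l in atTop, ((Δ l).card : ℝ) ≤ (2 : ℝ) ^ (((l : ℝ) + 1) * s)) →
  ∃ C : ℝ, 0 < C ∧ ∀ δ : ℝ, 0 < δ → δ ≤ 1 → ∃ F : Finset ℤ, (∀ x ∈ X c l₁ Δ, ⌊x / δ⌋ ∈ F) ∧
    (F.card : ℝ) ≤ C * (1 / δ) ^ s'

/-- (OUT, 50 lines) covering numbers of sets of positive outer measure: a set of diameter at most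
`δ` has outer measure at most `C δ^n` (it lies in a closed ball or a cube of side `2 δ`). `R` is
bounded, so that `coverNum` is attained (`Pool.Agent.V11295.ProgAny.exists_cover`). -/
def S_OUT : Prop := ∀ (n : ℕ) (R : Set (E n)), Bornology.IsBounded R → volume R ≠ 0 →
  ∃ c : ℝ, 0 < c ∧ ∀ δ : ℝ, 0 < δ → δ ≤ 1 → c * (1 / δ) ^ n ≤ (coverNum R δ : ℝ)

/-- (DIL, 40 lines) `coverNum (q • R) δ` for `q ≠ 0` -/
def S_DIL : Prop := ∀ (n : ℕ) (R : Set (E n)) (q : ℝ), Bornology.IsBounded R → q ≠ 0 →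
  ∀ δ : ℝ, 0 < δ → coverNum ((fun r => q • r) '' R) δ = coverNum R (δ / |q|)

/-- (LOW, 120 lines) the lower bound for the packing dimension. Let `B ⊆ ⋃ S i`, `S i` bounded, all
`upperMinkowski (S i) ≤ u`. By hypothesis `R = ⋃_{(q, c)} R_{q,c}`, `q ∈ ℚ`, `q ≠ 0`, `c : Fin k → ℕ`,
where `R_{q,c}` is the set of the `r` with some `a` such that `a + j (q r) ∈ S (c j)`; one of the
`R_{q,c}` has positive outer measure, `N_δ(q R) ≥ c' δ^(-n)` by OUT and DIL, so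
`n f log (1/δ) - C' ≤ ∑ w_j log N_δ(S (c j))`, hence `n f ≤ u`. -/
def S_LOW : Prop := ∀ (n k : ℕ) (f : ℝ) (w : Fin k → ℝ), 1 ≤ k → 0 ≤ f → (∀ j, 0 ≤ w j) → ∑ j, w j = 1 →
  (∃ C : ℝ, 0 < C ∧ ∀ (R : Set (E n)) (B : Fin k → Set (E n)), (∀ j, Bornology.IsBounded (B j)) →
    (∀ r ∈ R, ∃ a : E n, ∀ j : Fin k, a + ((j : ℕ) : ℝ) • r ∈ B j) →
    ∀ δ : ℝ, 0 < δ → (coverNum R δ : ℝ) ^ f ≤ C * ∏ j, (coverNum (B j) δ : ℝ) ^ w j) →
  ∀ R B : Set (E n), volume R ≠ 0 →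
    (∀ r ∈ R, ∃ (a : E n) (q : ℚ), q ≠ 0 ∧ ∀ j : ℕ, j < k → a + ((j : ℝ) * (q : ℝ)) • r ∈ B) →
    ((n * f : ℝ) : EReal) ≤ packingDim B

/-- (SZE, 60 lines) Szemerédi's theorem for positive upper Banach density, from
`Pool.Agent.N524.szem_abs` with `W s = Icc (-s) s`, `C = 2` (see `Pool.Agent.HP27.QF.szemerediZ` for
the verification of its hypotheses; do not import that file, it is long to compile). -/
def S_SZE : Prop := ∀ T : Set ℤ,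
  (∃ η : ℝ, 0 < η ∧ ∀ N₀ : ℕ, ∃ N : ℕ, N₀ ≤ N ∧ ∃ t : ℤ,
    η * N ≤ ((T ∩ Set.Ico t (t + N)).ncard : ℝ)) →
  ∀ k : ℕ, ∃ t d : ℤ, 0 < d ∧ ∀ j : ℕ, j < k → t + j * d ∈ T

/-- (LEB, 70 lines) a closed set `T ⊆ ℝ` of positive measure contains a `k`-term progression with
common difference `1 / q`. Let `F ⊆ T` be compact of positive measure, `U ⊇ F` open with
`μ U < (1 + 1/(k+1)) μ F`; for large `q` the sets `F - j / q`, `j < k`, are contained in `U` (compactness: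
the distance of `F` to the complement of `U` is positive), and the sum of the measures of their
complements in `U` is less than `μ F ≤ μ U`, so they have a common point. -/
def S_LEB : Prop := ∀ T : Set ℝ, IsClosed T → volume T ≠ 0 → ∀ k : ℕ,
  ∃ (t : ℝ) (q : ℕ), 0 < q ∧ ∀ j : ℕ, j < k → t + (j : ℝ) * (1 / (q : ℝ)) ∈ T

/-- (CLO, 40 lines) the closure of a bounded set has the same upper Minkowski dimension: replace the
sets of a covering by their closures. -/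
def S_CLO : Prop := ∀ (n : ℕ) (S : Set (E n)), Bornology.IsBounded S →
  upperMinkowski (closure S) ≤ upperMinkowski S

end Pool.Agent.H89IP
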